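import Mathlib

/-!
# Brun's pure sieve for sets with the same number of excluded classes modulo each prime
-/

set_option autoImplicit false

namespace Pool.Agent.H560.CL

open Finset

/-- The elementary symmetric sums. -/
noncomputable def es (x : ℕ → ℝ) (P : Finset ℕ) (j : ℕ) : ℝ :=
  ∑ S ∈ P.powersetCard j, ∏ p ∈ S, x p

lemma es_zero (x : ℕ → ℝ) (P : Finset ℕ) : es x P 0 = 1 := by
  simp [es]

lemma es_empty_succ (x : ℕ → ℝ) (j : ℕ) : es x ∅ (j + 1) = 0 := by
  unfold es
  rw [Finset.powersetCard_eq_empty.2 (by simp)]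
  simp

lemma es_insert (x : ℕ → ℝ) (P : Finset ℕ) (a : ℕ) (ha : a ∉ P) (j : ℕ) :
    es x (insert a P) (j + 1) = es x P (j + 1) + x a * es x P j := by
  unfold es
  rw [Finset.powersetCard_succ_insert ha]
  rw [Finset.sum_union]
  · congr 1
    rw [Finset.sum_image]
    · rw [Finset.mul_sum]
      refine Finset.sum_congr rfl fun S hS => ?_
      have haS : a ∉ S := fun h => ha ((Finset.mem_powersetCard.1 hS).1 h)
      rw [Finset.prod_insert haS]
    · intro S hS T hT h
      have haS : a ∉ S := fun h => ha ((Finset.mem_powersetCard.1 hS).1 h)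
      have haT : a ∉ T := fun h => ha ((Finset.mem_powersetCard.1 hT).1 h)
      have := congrArg (fun U => U.erase a) h
      simpa [Finset.erase_insert haS, Finset.erase_insert haT] using this
  · rw [Finset.disjoint_left]
    intro S hS hS'
    obtain ⟨T, hT, rfl⟩ := Finset.mem_image.1 hS'
    exact ha ((Finset.mem_powersetCard.1 hS).1 (Finset.mem_insert_self a T))

lemma es_nonneg (x : ℕ → ℝ) (P : Finset ℕ) (hx : ∀ p ∈ P, 0 ≤ x p) (j : ℕ) : 0 ≤ es x P j := by
  unfold es
  refine Finset.sum_nonneg fun S hS => Finset.prod_nonneg fun p hp => ?_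
  exact hx p ((Finset.mem_powersetCard.1 hS).1 hp)

lemma pow_add_ge (s x : ℝ) (hs : 0 ≤ s) (hx : 0 ≤ x) (j : ℕ) :
    s ^ (j + 1) + (j + 1) * x * s ^ j ≤ (s + x) ^ (j + 1) := by
  induction j with
  | zero => simp
  | succ j ih =>
    have h1 : (s + x) ^ (j + 1 + 1) = (s + x) * (s + x) ^ (j + 1) := by ring
    rw [h1]
    have h2 : (s + x) * (s ^ (j + 1) + (j + 1) * x * s ^ j) ≤ (s + x) * (s + x) ^ (j + 1) :=
      mul_le_mul_of_nonneg_left ih (by positivity)
    refine le_trans ?_ h2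
    have h3 : 0 ≤ x * ((j + 1) * x * s ^ j) := by positivity
    have h4 : (s + x) * (s ^ (j + 1) + (j + 1) * x * s ^ j)
        = s ^ (j + 1 + 1) + ((j : ℝ) + 1 + 1) * x * s ^ (j + 1) + x * ((j + 1) * x * s ^ j) := by
      ring
    push_cast
    rw [h4]
    linarith

lemma es_le (x : ℕ → ℝ) (P : Finset ℕ) (hx : ∀ p ∈ P, 0 ≤ x p) (j : ℕ) :
    es x P j ≤ (∑ p ∈ P, x p) ^ j / (j.factorial : ℝ) := by
  induction P using Finset.induction_on generalizing j with
  | empty =>
    cases j with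
    | zero => simp [es_zero]
    | succ j => simp [es_empty_succ]
  | insert a P ha ih =>
    have hxP : ∀ p ∈ P, 0 ≤ x p := fun p hp => hx p (Finset.mem_insert_of_mem hp)
    have hxa : 0 ≤ x a := hx a (Finset.mem_insert_self a P)
    have hs : 0 ≤ ∑ p ∈ P, x p := Finset.sum_nonneg hxP
    cases j with
    | zero => simp [es_zero]
    | succ j =>
      rw [es_insert x P a ha j, Finset.sum_insert ha]
      have h1 := ih hxP (j + 1)
      have h2 := mul_le_mul_of_nonneg_left (ih hxP j) hxa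
      have h3 := pow_add_ge (∑ p ∈ P, x p) (x a) hs hxa j
      have hf : ((j + 1).factorial : ℝ) = (j + 1) * (j.factorial : ℝ) := by
        rw [Nat.factorial_succ]; push_cast; ring
      have hf0 : (0 : ℝ) < (j.factorial : ℝ) := by exact_mod_cast Nat.factorial_pos j
      have hf1 : (0 : ℝ) < ((j + 1).factorial : ℝ) := by exact_mod_cast Nat.factorial_pos (j + 1)
      calc es x P (j + 1) + x a * es x P j
          ≤ (∑ p ∈ P, x p) ^ (j + 1) / ((j + 1).factorial : ℝ)
            + x a * ((∑ p ∈ P, x p) ^ j / (j.factorial : ℝ)) := add_le_add h1 h2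
        _ = ((∑ p ∈ P, x p) ^ (j + 1) + (j + 1) * x a * (∑ p ∈ P, x p) ^ j)
              / ((j + 1).factorial : ℝ) := by
            rw [hf]
            field_simp
        _ ≤ _ := by
            rw [add_comm (x a)]
            exact div_le_div_of_nonneg_right h3 hf1.le

/-- The truncated alternating sum. -/
noncomputable def FF (x : ℕ → ℝ) (P : Finset ℕ) (r : ℕ) : ℝ :=
  ∑ j ∈ Finset.range (r + 1), (-1) ^ j * es x P j

lemma FF_insert (x : ℕ → ℝ) (P : Finset ℕ) (a : ℕ) (ha : a ∉ P) (r : ℕ) :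
    FF x (insert a P) (r + 1) = FF x P (r + 1) - x a * FF x P r := by
  unfold FF
  rw [Finset.sum_range_succ' _ (r + 1), Finset.sum_range_succ' _ (r + 1)]
  simp only [pow_zero, one_mul, es_zero]
  rw [Finset.mul_sum]
  have : ∑ k ∈ Finset.range (r + 1), (-1 : ℝ) ^ (k + 1) * es x (insert a P) (k + 1)
      = ∑ k ∈ Finset.range (r + 1), (-1 : ℝ) ^ (k + 1) * es x P (k + 1)
        - ∑ k ∈ Finset.range (r + 1), x a * ((-1 : ℝ) ^ k * es x P k) := by
    rw [← Finset.sum_sub_distrib]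
    refine Finset.sum_congr rfl fun k _ => ?_
    rw [es_insert x P a ha k]
    ring
  rw [this]
  ring

lemma bonferroni (x : ℕ → ℝ) (P : Finset ℕ) (hx : ∀ p ∈ P, 0 ≤ x p ∧ x p ≤ 1) (r : ℕ) :
    0 ≤ (-1) ^ r * (FF x P r - ∏ p ∈ P, (1 - x p)) ∧
      (-1) ^ r * (FF x P r - ∏ p ∈ P, (1 - x p)) ≤ es x P (r + 1) := by
  induction P using Finset.induction_on generalizing r with
  | empty =>
    have h : FF x ∅ r = 1 := by
      unfold FF
      rw [Finset.sum_range_succ']
      simp [es_zero, es_empty_succ]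
    rw [h]
    simp [es_empty_succ]
  | insert a P ha ih =>
    have hxP : ∀ p ∈ P, 0 ≤ x p ∧ x p ≤ 1 := fun p hp => hx p (Finset.mem_insert_of_mem hp)
    have hxa := hx a (Finset.mem_insert_self a P)
    have hprod : 0 ≤ ∏ p ∈ P, (1 - x p) ∧ ∏ p ∈ P, (1 - x p) ≤ 1 := by
      constructor
      · exact Finset.prod_nonneg fun p hp => by linarith [(hxP p hp).2]
      · exact Finset.prod_le_one (fun p hp => by linarith [(hxP p hp).2])
          (fun p hp => by linarith [(hxP p hp).1])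
    rw [Finset.prod_insert ha]
    cases r with
    | zero =>
      have h0 := ih hxP 0
      simp only [pow_zero, one_mul] at h0 ⊢
      have hF : ∀ Q : Finset ℕ, FF x Q 0 = 1 := fun Q => by simp [FF, es_zero]
      rw [hF] at h0 ⊢
      rw [es_insert x P a ha 0, es_zero]
      constructor
      · nlinarith [hxa.1, hprod.1, h0.1]
      · nlinarith [hxa.1, hprod.1, h0.2, hprod.2, mul_le_mul_of_nonneg_left hprod.2 hxa.1]
    | succ r =>
      have h1 := ih hxP (r + 1)
      have h0 := ih hxP r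
      rw [FF_insert x P a ha r, es_insert x P a ha (r + 1)]
      have key : (-1 : ℝ) ^ (r + 1) * (FF x P (r + 1) - x a * FF x P r
            - (1 - x a) * ∏ p ∈ P, (1 - x p))
          = (-1) ^ (r + 1) * (FF x P (r + 1) - ∏ p ∈ P, (1 - x p))
            + x a * ((-1) ^ r * (FF x P r - ∏ p ∈ P, (1 - x p))) := by
        ring
      rw [key]
      constructor
      · exact add_nonneg h1.1 (mul_nonneg hxa.1 h0.1)
      · exact add_le_add h1.2 (mul_le_mul_of_nonneg_left h0.2 hxa.1)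

/-- The number of the `n ≤ X` in a residue class. -/
lemma class_count (X M b : ℕ) (hM : 0 < M) :
    |(((Ioc 0 X).filter (fun n => n ≡ b [MOD M])).card : ℝ) - (X : ℝ) / M| ≤ 1 := by
  have h := Nat.Ioc_filter_modEq_card 0 X hM b
  have hM' : (0 : ℚ) < M := by exact_mod_cast hM
  have h1 := Int.floor_le (((X : ℚ) - b) / M)
  have h2 := Int.lt_floor_add_one (((X : ℚ) - b) / M)
  have h3 := Int.floor_le ((((0 : ℕ) : ℚ) - b) / M)
  have h4 := Int.lt_floor_add_one ((((0 : ℕ) : ℚ) - b) / M)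
  have hX : (0 : ℚ) ≤ (X : ℚ) / M := by positivity
  have e : ((X : ℚ) - b) / M - (((0 : ℕ) : ℚ) - b) / M = (X : ℚ) / M := by
    push_cast; ring
  have hc : |((((Ioc 0 X).filter (fun n => n ≡ b [MOD M])).card : ℤ) : ℚ) - (X : ℚ) / M| ≤ 1 := by
    rw [h]
    rw [abs_le]
    push_cast at *
    constructor
    · have : (⌊((X : ℚ) - b) / M⌋ : ℚ) - ⌊((0 : ℚ) - b) / M⌋
          ≤ max ((⌊((X : ℚ) - b) / M⌋ : ℚ) - ⌊((0 : ℚ) - b) / M⌋) 0 := le_max_left _ _
      linarith
    · have : max ((⌊((X : ℚ) - b) / M⌋ : ℚ) - ⌊((0 : ℚ) - b) / M⌋) 0 ≤ (X : ℚ) / M + 1 := by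
        refine max_le ?_ (by linarith)
        linarith
      linarith
  have : ((|((((Ioc 0 X).filter (fun n => n ≡ b [MOD M])).card : ℤ) : ℚ) - (X : ℚ) / M| : ℚ) : ℝ)
      ≤ ((1 : ℚ) : ℝ) := by exact_mod_cast hc
  push_cast at this
  simpa using this

/-- The number of the `n ≤ X` in a residue class modulo `M` and in one of `k` classes modulo each prime of
`S`. -/
lemma classes_count (X k : ℕ) (Ω : ℕ → Finset ℕ) (S : Finset ℕ) :
    (∀ p ∈ S, p.Prime) → (∀ p ∈ S, Ω p ⊆ Finset.range p ∧ (Ω p).card = k) →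
    ∀ M b : ℕ, 0 < M → (∀ p ∈ S, Nat.Coprime M p) →
    |(((Ioc 0 X).filter (fun n => n ≡ b [MOD M] ∧ ∀ p ∈ S, n % p ∈ Ω p)).card : ℝ)
      - (X : ℝ) / M * ∏ p ∈ S, ((k : ℝ) / p)| ≤ (k : ℝ) ^ S.card := by
  induction S using Finset.induction_on with
  | empty =>
    intro _ _ M b hM _
    simpa using class_count X M b hM
  | insert a S ha ih =>
    intro hp hΩ M b hM hco
    have hpa : a.Prime := hp a (Finset.mem_insert_self a S)
    have hcoa : Nat.Coprime M a := hco a (Finset.mem_insert_self a S)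
    have hpS : ∀ p ∈ S, p.Prime := fun p h => hp p (Finset.mem_insert_of_mem h)
    have hΩS : ∀ p ∈ S, Ω p ⊆ Finset.range p ∧ (Ω p).card = k :=
      fun p h => hΩ p (Finset.mem_insert_of_mem h)
    have hcoS : ∀ p ∈ S, Nat.Coprime (M * a) p := by
      intro p h
      refine Nat.Coprime.mul_left (hco p (Finset.mem_insert_of_mem h)) ?_
      exact (Nat.coprime_primes hpa (hpS p h)).2 (fun e => ha (e ▸ h))
    have hsplit : (Ioc 0 X).filter (fun n => n ≡ b [MOD M] ∧ ∀ p ∈ insert a S, n % p ∈ Ω p)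
        = (Ω a).biUnion (fun c => (Ioc 0 X).filter (fun n =>
            n ≡ (Nat.chineseRemainder hcoa b c : ℕ) [MOD (M * a)] ∧ ∀ p ∈ S, n % p ∈ Ω p)) := by
      ext n
      simp only [Finset.mem_filter, Finset.mem_biUnion, Finset.mem_insert, forall_eq_or_imp]
      constructor
      · rintro ⟨hn, h1, h2, h3⟩
        refine ⟨n % a, h2, hn, ?_, h3⟩
        rw [← Nat.modEq_and_modEq_iff_modEq_mul hcoa]
        have hc := (Nat.chineseRemainder hcoa b (n % a)).2
        exact ⟨h1.trans hc.1.symm, ((Nat.mod_modEq n a).symm).trans hc.2.symm⟩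
      · rintro ⟨c, hc, hn, h1, h2⟩
        rw [← Nat.modEq_and_modEq_iff_modEq_mul hcoa] at h1
        have hcr := (Nat.chineseRemainder hcoa b c).2
        refine ⟨hn, h1.1.trans hcr.1, ?_, h2⟩
        have h4 : n ≡ c [MOD a] := h1.2.trans hcr.2
        have h5 : c < a := Finset.mem_range.1 ((hΩ a (Finset.mem_insert_self a S)).1 hc)
        have h6 : n % a = c := by
          have := h4
          unfold Nat.ModEq at this
          rwa [Nat.mod_eq_of_lt h5] at this
        rwa [h6]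
    rw [hsplit, Finset.card_biUnion]
    · rw [Finset.prod_insert ha, Finset.card_insert_of_notMem ha]
      push_cast
      have hk : (Ω a).card = k := (hΩ a (Finset.mem_insert_self a S)).2
      have hrew : (X : ℝ) / M * ((k : ℝ) / a * ∏ p ∈ S, ((k : ℝ) / p))
          = ∑ c ∈ Ω a, (X : ℝ) / ((M * a : ℕ) : ℝ) * ∏ p ∈ S, ((k : ℝ) / p) := by
        rw [Finset.sum_const, hk, nsmul_eq_mul]
        push_cast
        have h1 : (a : ℝ) ≠ 0 := by exact_mod_cast hpa.ne_zero
        have h2 : (M : ℝ) ≠ 0 := by exact_mod_cast hM.ne'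
        field_simp
      rw [hrew, ← Finset.sum_sub_distrib]
      refine (Finset.abs_sum_le_sum_abs _ _).trans ?_
      have : ∑ c ∈ Ω a, |(((Ioc 0 X).filter (fun n =>
            n ≡ (Nat.chineseRemainder hcoa b c : ℕ) [MOD (M * a)] ∧ ∀ p ∈ S, n % p ∈ Ω p)).card : ℝ)
            - (X : ℝ) / ((M * a : ℕ) : ℝ) * ∏ p ∈ S, ((k : ℝ) / p)|
          ≤ ∑ c ∈ Ω a, (k : ℝ) ^ S.card :=
        Finset.sum_le_sum fun c _ => ih hpS hΩS (M * a) _ (Nat.mul_pos hM hpa.pos) hcoS
      refine this.trans ?_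
      rw [Finset.sum_const, hk, nsmul_eq_mul, pow_succ]
      linarith [mul_comm (k : ℝ) ((k : ℝ) ^ S.card)]
    · intro c hc c' hc' hne
      rw [Function.onFun, Finset.disjoint_left]
      intro n hn hn'
      apply hne
      rw [Finset.mem_filter, ← Nat.modEq_and_modEq_iff_modEq_mul hcoa] at hn hn'
      have h1 := hn.2.1.2.trans (Nat.chineseRemainder hcoa b c).2.2
      have h2 := hn'.2.1.2.trans (Nat.chineseRemainder hcoa b c').2.2
      have h3 : c ≡ c' [MOD a] := h1.symm.trans h2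
      have h5 : c < a := Finset.mem_range.1 ((hΩ a (Finset.mem_insert_self a S)).1 hc)
      have h5' : c' < a := Finset.mem_range.1 ((hΩ a (Finset.mem_insert_self a S)).1 hc')
      exact Nat.ModEq.eq_of_lt_of_lt h3 h5 h5'

/-- **Brun's pure sieve.** -/
theorem brun (X k r : ℕ) (hr : Even r) (P : Finset ℕ) (hP : ∀ p ∈ P, p.Prime) (Ω : ℕ → Finset ℕ)
    (hΩ : ∀ p ∈ P, Ω p ⊆ Finset.range p ∧ (Ω p).card = k) :
    ((((Ioc 0 X).filter (fun n => ∀ p ∈ P, n % p ∉ Ω p)).card : ℕ) : ℝ)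
      ≤ X * ∏ p ∈ P, (1 - (k : ℝ) / p)
        + X * ((∑ p ∈ P, (k : ℝ) / p) ^ (r + 1) / ((r + 1).factorial : ℝ))
        + (1 + (k : ℝ) * P.card) ^ r := by
  classical
  set x : ℕ → ℝ := fun p => (k : ℝ) / p with hx
  have hx01 : ∀ p ∈ P, 0 ≤ x p ∧ x p ≤ 1 := by
    intro p hp
    have hpp := hP p hp
    have h1 : (0 : ℝ) < p := by exact_mod_cast hpp.pos
    have h2 : k ≤ p := by
      have := Finset.card_le_card (hΩ p hp).1
      rw [(hΩ p hp).2, Finset.card_range] at this
      exact this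
    refine ⟨by positivity, ?_⟩
    rw [hx]
    simp only
    rw [div_le_one h1]
    exact_mod_cast h2
  -- pointwise inequality
  have hpt : ∀ n : ℕ, (if ∀ p ∈ P, n % p ∉ Ω p then (1 : ℝ) else 0)
      ≤ ∑ j ∈ Finset.range (r + 1), (-1 : ℝ) ^ j *
          ∑ S ∈ P.powersetCard j, (if ∀ p ∈ S, n % p ∈ Ω p then (1 : ℝ) else 0) := by
    intro n
    set T := P.filter (fun p => n % p ∈ Ω p) with hT
    have hcount : ∀ j, ∑ S ∈ P.powersetCard j, (if ∀ p ∈ S, n % p ∈ Ω p then (1 : ℝ) else 0)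
        = (T.card.choose j : ℝ) := by
      intro j
      rw [← Finset.sum_filter, Finset.sum_const, nsmul_eq_mul, mul_one,
        ← Finset.card_powersetCard]
      congr 2
      ext S
      simp only [Finset.mem_filter, Finset.mem_powersetCard, hT]
      constructor
      · rintro ⟨⟨h1, h2⟩, h3⟩
        exact ⟨fun p hp => Finset.mem_filter.2 ⟨h1 hp, h3 p hp⟩, h2⟩
      · rintro ⟨h1, h2⟩
        exact ⟨⟨fun p hp => (Finset.mem_filter.1 (h1 hp)).1, h2⟩,
          fun p hp => (Finset.mem_filter.1 (h1 hp)).2⟩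
    simp only [hcount]
    by_cases hc : ∀ p ∈ P, n % p ∉ Ω p
    · rw [if_pos hc]
      have hT0 : T.card = 0 := by
        rw [Finset.card_eq_zero, hT, Finset.filter_eq_empty_iff]
        exact fun p hp => hc p hp
      rw [hT0, Finset.sum_range_succ']
      simp
    · rw [if_neg hc]
      push Not at hc
      obtain ⟨p, hp, hpΩ⟩ := hc
      have hTpos : 0 < T.card := Finset.card_pos.2 ⟨p, Finset.mem_filter.2 ⟨hp, hpΩ⟩⟩
      obtain ⟨t, ht⟩ : ∃ t, T.card = t + 1 := ⟨T.card - 1, by omega⟩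
      rw [ht]
      have h := Int.alternating_sum_range_choose_eq_choose (n := t) (m := r)
      have h' : ∑ j ∈ Finset.range (r + 1), (-1 : ℝ) ^ j * ((t + 1).choose j : ℝ)
          = (-1) ^ r * (t.choose r : ℝ) := by exact_mod_cast h
      rw [h', hr.neg_one_pow, one_mul]
      positivity
  -- sum over `n`
  have hsum : ((((Ioc 0 X).filter (fun n => ∀ p ∈ P, n % p ∉ Ω p)).card : ℕ) : ℝ)
      ≤ ∑ j ∈ Finset.range (r + 1), (-1 : ℝ) ^ j *
          ∑ S ∈ P.powersetCard j,
            (((Ioc 0 X).filter (fun n => ∀ p ∈ S, n % p ∈ Ω p)).card : ℝ) := by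
    rw [Finset.card_filter]
    push_cast
    refine (Finset.sum_le_sum fun n _ => hpt n).trans (le_of_eq ?_)
    rw [Finset.sum_comm]
    refine Finset.sum_congr rfl fun j _ => ?_
    rw [← Finset.mul_sum]
    congr 1
    rw [Finset.sum_comm]
    refine Finset.sum_congr rfl fun S _ => ?_
    rw [Finset.card_filter]
    push_cast
    rfl
  -- the counts
  have hcnt : ∀ S ⊆ P, |(((Ioc 0 X).filter (fun n => ∀ p ∈ S, n % p ∈ Ω p)).card : ℝ)
      - X * ∏ p ∈ S, x p| ≤ (k : ℝ) ^ S.card := by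
    intro S hS
    have := classes_count X k Ω S (fun p hp => hP p (hS hp)) (fun p hp => hΩ p (hS hp)) 1 0
      one_pos (fun p _ => Nat.coprime_one_left p)
    simp only [Nat.modEq_one, true_and, Nat.cast_one, div_one] at this
    exact this
  have hmain : ∑ j ∈ Finset.range (r + 1), (-1 : ℝ) ^ j *
          ∑ S ∈ P.powersetCard j,
            (((Ioc 0 X).filter (fun n => ∀ p ∈ S, n % p ∈ Ω p)).card : ℝ)
      ≤ X * FF x P r + ∑ j ∈ Finset.range (r + 1), ∑ S ∈ P.powersetCard j, (k : ℝ) ^ j := by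
    unfold FF es
    rw [Finset.mul_sum, ← Finset.sum_add_distrib]
    refine Finset.sum_le_sum fun j _ => ?_
    have h1 : (-1 : ℝ) ^ j * ∑ S ∈ P.powersetCard j,
            (((Ioc 0 X).filter (fun n => ∀ p ∈ S, n % p ∈ Ω p)).card : ℝ)
          - X * ((-1 : ℝ) ^ j * ∑ S ∈ P.powersetCard j, ∏ p ∈ S, x p)
        = (-1 : ℝ) ^ j * ∑ S ∈ P.powersetCard j,
            ((((Ioc 0 X).filter (fun n => ∀ p ∈ S, n % p ∈ Ω p)).card : ℝ)
              - X * ∏ p ∈ S, x p) := by
      rw [Finset.sum_sub_distrib, ← Finset.mul_sum]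
      ring
    have h2 : |(-1 : ℝ) ^ j * ∑ S ∈ P.powersetCard j,
            ((((Ioc 0 X).filter (fun n => ∀ p ∈ S, n % p ∈ Ω p)).card : ℝ)
              - X * ∏ p ∈ S, x p)| ≤ ∑ S ∈ P.powersetCard j, (k : ℝ) ^ j := by
      rw [abs_mul, abs_pow, abs_neg, abs_one, one_pow, one_mul]
      refine (Finset.abs_sum_le_sum_abs _ _).trans (Finset.sum_le_sum fun S hS => ?_)
      have hS' := Finset.mem_powersetCard.1 hS
      have := hcnt S hS'.1
      rwa [hS'.2] at this
    have h3 := (abs_le.1 h2).2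
    linarith [h1, h3]
  have herr : ∑ j ∈ Finset.range (r + 1), ∑ S ∈ P.powersetCard j, (k : ℝ) ^ j
      ≤ (1 + (k : ℝ) * P.card) ^ r := by
    rw [add_comm (1 : ℝ), add_pow]
    refine Finset.sum_le_sum fun j hj => ?_
    rw [Finset.sum_const, Finset.card_powersetCard, nsmul_eq_mul, mul_pow, one_pow, mul_one]
    have h1 : ((P.card.choose j : ℕ) : ℝ) ≤ (P.card : ℝ) ^ j := by
      exact_mod_cast Nat.choose_le_pow P.card j
    have h2 : (1 : ℝ) ≤ (r.choose j : ℝ) := by
      exact_mod_cast Nat.choose_pos (Nat.lt_succ_iff.1 (Finset.mem_range.1 hj))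
    have h3 : (0 : ℝ) ≤ (k : ℝ) ^ j * (P.card : ℝ) ^ j := by positivity
    calc (P.card.choose j : ℝ) * (k : ℝ) ^ j ≤ (P.card : ℝ) ^ j * (k : ℝ) ^ j :=
          mul_le_mul_of_nonneg_right h1 (by positivity)
      _ = ((k : ℝ) ^ j * (P.card : ℝ) ^ j) * 1 := by ring
      _ ≤ ((k : ℝ) ^ j * (P.card : ℝ) ^ j) * (r.choose j : ℝ) :=
          mul_le_mul_of_nonneg_left h2 h3
  have hb := bonferroni x P hx01 r
  rw [hr.neg_one_pow, one_mul] at hb
  have he := es_le x P (fun p hp => (hx01 p hp).1) (r + 1)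
  have hX : (0 : ℝ) ≤ X := Nat.cast_nonneg X
  have h1 : X * FF x P r ≤ X * ∏ p ∈ P, (1 - x p)
      + X * ((∑ p ∈ P, x p) ^ (r + 1) / ((r + 1).factorial : ℝ)) := by
    rw [← mul_add]
    exact mul_le_mul_of_nonneg_left (by linarith [hb.2]) hX
  linarith [hsum, hmain, herr, h1]

end Pool.Agent.H560.CL
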