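import Mathlib
import Pool.Graph.R_seed8.H305R2.MertensE

/-!
# The twin prime constant and the product of `1 - 1 / (p - 1)`
-/

set_option autoImplicit false

namespace Pool.Agent.H560.CL

open Finset Filter Topology

/-- The twin prime constant `C₂ = ∏_{p > 2} (1 - 1 / (p - 1) ^ 2) = 0.66016...`: the infimum (the limit) of the
decreasing partial products over the primes `3 ≤ p ≤ z`. -/
noncomputable def twinC : ℝ := ⨅ z : ℕ, ∏ p ∈ (Icc 3 z).filter Nat.Prime, (1 - 1 / ((p : ℝ) - 1) ^ 2)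

/-- `κ = e ^ γ / (2 C₂) = 1.3489...`, where `γ` is Euler's constant and `C₂` the twin prime constant. -/
noncomputable def kappa : ℝ := Real.exp Real.eulerMascheroniConstant / (2 * twinC)

/-- partial products -/
noncomputable def twinPart (z : ℕ) : ℝ := ∏ p ∈ (Icc 3 z).filter Nat.Prime, (1 - 1 / ((p : ℝ) - 1) ^ 2)

/-- partial products -/
noncomputable def PP (z : ℕ) : ℝ := ∏ p ∈ (Icc 3 z).filter Nat.Prime, (1 - 1 / ((p : ℝ) - 1))

lemma twinPart_succ (z : ℕ) (hz : 2 ≤ z) : twinPart (z + 1) =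
    twinPart z * (if (z + 1).Prime then (1 - 1 / ((z : ℝ)) ^ 2) else 1) := by
  unfold twinPart
  have h1 : Icc 3 (z + 1) = insert (z + 1) (Icc 3 z) := by
    ext x; simp only [mem_Icc, mem_insert]; omega
  rw [h1, filter_insert]
  split_ifs with h
  · rw [prod_insert (by simp), mul_comm]
    congr 2
    push_cast
    ring
  · rw [mul_one]

lemma twinPart_two : twinPart 2 = 1 := by
  unfold twinPart
  have : Icc 3 2 = (∅ : Finset ℕ) := by decide
  rw [this, filter_empty, prod_empty]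

lemma twinPart_lower (z : ℕ) (hz : 2 ≤ z) : (z : ℝ) / (2 * ((z : ℝ) - 1)) ≤ twinPart z := by
  induction z, hz using Nat.le_induction with
  | base => rw [twinPart_two]; norm_num
  | succ z hz ih =>
    rw [twinPart_succ z hz]
    have hz' : (2 : ℝ) ≤ z := by exact_mod_cast hz
    have h1 : (0 : ℝ) < z - 1 := by linarith
    have h0 : (0 : ℝ) < z := by linarith
    have h2 : (((z + 1 : ℕ) : ℝ)) / (2 * (((z + 1 : ℕ) : ℝ) - 1)) = (z : ℝ) / (2 * ((z : ℝ) - 1)) * (1 - 1 / (z : ℝ) ^ 2) := by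
      push_cast
      have h3 : (z : ℝ) + 1 - 1 = z := by ring
      rw [h3]
      field_simp
      ring
    rw [h2]
    have h4 : 0 ≤ 1 - 1 / (z : ℝ) ^ 2 := by
      rw [sub_nonneg, div_le_one (by positivity)]
      nlinarith
    split_ifs
    · exact mul_le_mul_of_nonneg_right ih h4
    · rw [mul_one]
      refine le_trans ?_ ih
      have h5 : 1 - 1 / (z : ℝ) ^ 2 ≤ 1 := by
        have : 0 ≤ 1 / (z : ℝ) ^ 2 := by positivity
        linarith
      have h6 : 0 ≤ (z : ℝ) / (2 * ((z : ℝ) - 1)) := by positivity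
      nlinarith

lemma twinPart_lt {z : ℕ} (hz : z < 3) : twinPart z = 1 := by
  unfold twinPart
  have : Icc 3 z = (∅ : Finset ℕ) := by
    ext x; simp only [mem_Icc, notMem_empty]; constructor
    · intro h; omega
    · intro h; exact h.elim
  rw [this, filter_empty, prod_empty]

lemma twinPart_half (z : ℕ) : 1 / 2 ≤ twinPart z := by
  rcases lt_or_ge z 3 with h | h
  · rw [twinPart_lt h]; norm_num
  · refine le_trans ?_ (twinPart_lower z (by omega))
    have hz' : (3 : ℝ) ≤ z := by exact_mod_cast h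
    rw [div_le_div_iff₀ (by norm_num) (by linarith)]
    linarith

lemma twinPart_anti : Antitone twinPart := by
  apply antitone_nat_of_succ_le
  intro z
  rcases lt_or_ge z 2 with h | h
  · rw [twinPart_lt (by omega : z < 3), twinPart_lt (by omega : z + 1 < 3)]
  · rw [twinPart_succ z h]
    have h1 : 0 ≤ twinPart z := le_trans (by norm_num) (twinPart_half z)
    split_ifs
    · have : 0 ≤ 1 / (z : ℝ) ^ 2 := by positivity
      nlinarith
    · rw [mul_one]

lemma twinPart_bdd : BddBelow (Set.range twinPart) := ⟨1 / 2, by rintro _ ⟨z, rfl⟩; exact twinPart_half z⟩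

lemma twinPart_tendsto : Tendsto twinPart atTop (𝓝 twinC) :=
  tendsto_atTop_ciInf twinPart_anti twinPart_bdd

lemma twinC_half : 1 / 2 ≤ twinC := le_ciInf twinPart_half

lemma twinC_pos : 0 < twinC := lt_of_lt_of_le (by norm_num) twinC_half

lemma twinC_le_one : twinC ≤ 1 := by
  have := ciInf_le twinPart_bdd 2
  rw [twinPart_two] at this
  exact this

lemma kappa_pos : 0 < kappa := div_pos (Real.exp_pos _) (by have := twinC_pos; positivity)

lemma PP_mul (z : ℕ) (hz : 2 ≤ z) :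
    PP z * (∏ p ∈ (Finset.Icc 1 z).filter Nat.Prime, (1 - (p : ℝ)⁻¹)⁻¹) = 2 * twinPart z := by
  have h1 : (Finset.Icc 1 z).filter Nat.Prime = insert 2 ((Icc 3 z).filter Nat.Prime) := by
    ext x
    simp only [mem_filter, mem_Icc, mem_insert]
    constructor
    · rintro ⟨⟨a, b⟩, c⟩
      have := c.two_le
      by_cases h : x = 2
      · exact Or.inl h
      · exact Or.inr ⟨⟨by omega, b⟩, c⟩
    · rintro (h | ⟨⟨a, b⟩, c⟩)
      · subst h; exact ⟨⟨by omega, hz⟩, Nat.prime_two⟩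
      · exact ⟨⟨by omega, b⟩, c⟩
  rw [h1, prod_insert (by simp)]
  have h2 : PP z * ∏ p ∈ (Icc 3 z).filter Nat.Prime, (1 - (p : ℝ)⁻¹)⁻¹ = twinPart z := by
    unfold PP twinPart
    rw [← prod_mul_distrib]
    apply prod_congr rfl
    intro p hp
    have h3 : 3 ≤ p := (mem_Icc.1 (mem_filter.1 hp).1).1
    have h4 : (3 : ℝ) ≤ p := by exact_mod_cast h3
    have h5 : (p : ℝ) - 1 ≠ 0 := by linarith
    have h6 : (p : ℝ) ≠ 0 := by linarith
    have h7 : (1 - (p : ℝ)⁻¹) = (p - 1) / p := by field_simp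
    rw [h7, inv_div]
    field_simp
    ring
  calc PP z * ((1 - ((2 : ℕ) : ℝ)⁻¹)⁻¹ * ∏ p ∈ (Icc 3 z).filter Nat.Prime, (1 - (p : ℝ)⁻¹)⁻¹)
      = (1 - ((2 : ℕ) : ℝ)⁻¹)⁻¹ * (PP z * ∏ p ∈ (Icc 3 z).filter Nat.Prime, (1 - (p : ℝ)⁻¹)⁻¹) := by ring
    _ = 2 * twinPart z := by rw [h2]; norm_num

lemma PP_tendsto : Tendsto (fun z : ℕ => PP z * Real.log z) atTop (𝓝 (1 / kappa)) := by
  have h1 := Pool.Agent.H305R2.mertens_three
  have h2 : (0 : ℝ) < Real.exp Real.eulerMascheroniConstant := Real.exp_pos _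
  have h3 := (twinPart_tendsto.const_mul 2).div h1 h2.ne'
  have h4 : 1 / kappa = 2 * twinC / Real.exp Real.eulerMascheroniConstant := by
    unfold kappa
    rw [one_div, inv_div]
  rw [h4]
  refine h3.congr' ?_
  filter_upwards [eventually_ge_atTop 2] with z hz
  have h5 := PP_mul z hz
  simp only [Pi.div_apply]
  rw [← h5]
  have hlog : 0 < Real.log z := Real.log_pos (by exact_mod_cast (by omega : 1 < z))
  have hprod : 0 < ∏ p ∈ (Finset.Icc 1 z).filter Nat.Prime, (1 - (p : ℝ)⁻¹)⁻¹ := by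
    apply prod_pos
    intro p hp
    have h6 : 2 ≤ p := (mem_filter.1 hp).2.two_le
    have h7 : (2 : ℝ) ≤ p := by exact_mod_cast h6
    apply inv_pos.2
    have : (p : ℝ)⁻¹ ≤ 1 / 2 := by rw [one_div]; exact inv_anti₀ (by norm_num) h7
    linarith
  generalize (∏ p ∈ (Finset.Icc 1 z).filter Nat.Prime, (1 - (p : ℝ)⁻¹)⁻¹) = M at hprod ⊢
  field_simp

lemma PP_nonneg (z : ℕ) : 0 ≤ PP z := by
  apply prod_nonneg
  intro p hp
  have h3 : 3 ≤ p := (mem_Icc.1 (mem_filter.1 hp).1).1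
  have h4 : (3 : ℝ) ≤ p := by exact_mod_cast h3
  rw [sub_nonneg, div_le_one (by linarith)]
  linarith

end Pool.Agent.H560.CL
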