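import Mathlib
import Pool.Agent.H560.CL.Twin
import Pool.Graph.R_seed8.Cov.PNT

/-!
# Covering a small set which misses a class modulo every odd prime
-/

set_option autoImplicit false

namespace Pool.Agent.H560.CL

open Finset Filter Topology

/-- the greedy choice of the classes -/
lemma greedy (a : ℕ → ℕ) (D : Finset ℕ) (P : Finset ℕ) (hP : ∀ p ∈ P, 3 ≤ p)
    (hD : ∀ p ∈ P, ∀ d ∈ D, d % p ≠ a p % p) :
    ∃ (c : ℕ → ℕ) (E : Finset ℕ), E ⊆ D ∧ (∀ d ∈ D, d ∉ E → ∃ p ∈ P, d % p = c p % p) ∧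
      (E.card : ℝ) ≤ D.card * ∏ p ∈ P, (1 - 1 / ((p : ℝ) - 1)) := by
  classical
  induction P using Finset.induction_on with
  | empty => exact ⟨fun _ => 0, D, Subset.rfl, fun d hd h => absurd hd h, by simp⟩
  | insert l P hl ih =>
    obtain ⟨c, E, hE, hc, hcard⟩ := ih (fun p hp => hP p (mem_insert_of_mem hp))
      (fun p hp => hD p (mem_insert_of_mem hp))
    have hl3 : 3 ≤ l := hP l (mem_insert_self _ _)
    have hl3' : (3 : ℝ) ≤ l := by exact_mod_cast hl3
    -- popular class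
    obtain ⟨r, hr⟩ : ∃ r : ℕ, (E.card : ℝ) ≤ ((l : ℝ) - 1) * ((E.filter (fun d => d % l = r)).card : ℝ) := by
      by_contra hcon
      push Not at hcon
      have h1 : E.card = ∑ r ∈ (range l).erase (a l % l), (E.filter (fun d => d % l = r)).card := by
        apply card_eq_sum_card_fiberwise
        intro d hd
        rw [mem_coe, mem_erase, mem_range]
        exact ⟨hD l (mem_insert_self _ _) d (hE hd), Nat.mod_lt _ (by omega)⟩
      have h2 : ((range l).erase (a l % l)).card = l - 1 := by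
        rw [card_erase_of_mem (mem_range.2 (Nat.mod_lt _ (by omega))), card_range]
      have h3 : ∑ r ∈ (range l).erase (a l % l), ((l : ℝ) - 1) * ((E.filter (fun d => d % l = r)).card : ℝ)
          < ∑ r ∈ (range l).erase (a l % l), (E.card : ℝ) := by
        apply sum_lt_sum_of_nonempty
        · rw [← card_pos, h2]; omega
        · intro r _; exact hcon r
      rw [← mul_sum, sum_const, h2, nsmul_eq_mul, ← Nat.cast_sum, ← h1, Nat.cast_sub (by omega)] at h3
      push_cast at h3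
      exact lt_irrefl _ h3
    refine ⟨Function.update c l r, E.filter (fun d => d % l ≠ r % l ∨ l ≤ r), ?_, ?_, ?_⟩
    · exact (filter_subset _ _).trans hE
    · intro d hd hdE
      by_cases h : d ∈ E
      · have : ¬ (d % l ≠ r % l ∨ l ≤ r) := fun h' => hdE (mem_filter.2 ⟨h, h'⟩)
        push Not at this
        exact ⟨l, mem_insert_self _ _, by rw [Function.update_self]; exact this.1⟩
      · obtain ⟨p, hp, hp'⟩ := hc d hd h
        refine ⟨p, mem_insert_of_mem hp, ?_⟩
        rw [Function.update_of_ne]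
        · exact hp'
        · rintro rfl; exact hl hp
    · rw [prod_insert hl]
      have h1 : ((E.filter (fun d => d % l ≠ r % l ∨ l ≤ r)).card : ℝ)
          ≤ E.card - ((E.filter (fun d => d % l = r)).card : ℝ) := by
        have h2 : (E.filter (fun d => d % l ≠ r % l ∨ l ≤ r)).card + (E.filter (fun d => d % l = r)).card
            ≤ E.card := by
          rw [← card_union_of_disjoint]
          · exact card_le_card (union_subset (filter_subset _ _) (filter_subset _ _))
          · rw [disjoint_filter]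
            intro d _ h1 h2
            have h3 : r < l := by rw [← h2]; exact Nat.mod_lt _ (by omega)
            rcases h1 with h1 | h1
            · apply h1; rw [← h2, Nat.mod_mod]
            · omega
        have h3 : ((E.filter (fun d => d % l ≠ r % l ∨ l ≤ r)).card : ℝ) + ((E.filter (fun d => d % l = r)).card : ℝ)
            ≤ E.card := by exact_mod_cast h2
        linarith
      have hl1 : (0 : ℝ) < (l : ℝ) - 1 := by linarith
      have h2 : (E.card : ℝ) / ((l : ℝ) - 1) ≤ ((E.filter (fun d => d % l = r)).card : ℝ) := by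
        rw [div_le_iff₀ hl1]; linarith
      have h3 : 0 ≤ 1 - 1 / ((l : ℝ) - 1) := by
        rw [sub_nonneg, div_le_one hl1]; linarith
      calc ((E.filter (fun d => d % l ≠ r % l ∨ l ≤ r)).card : ℝ)
          ≤ E.card - E.card / ((l : ℝ) - 1) := by linarith
        _ = E.card * (1 - 1 / ((l : ℝ) - 1)) := by ring
        _ ≤ (D.card * ∏ p ∈ P, (1 - 1 / ((p : ℝ) - 1))) * (1 - 1 / ((l : ℝ) - 1)) :=
            mul_le_mul_of_nonneg_right hcard h3
        _ = _ := by ring

/-- one prime for every remaining element -/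
lemma assign (E P : Finset ℕ) (h : E.card ≤ P.card) : ∃ g : ℕ → ℕ, ∀ d ∈ E, ∃ p ∈ P, g p = d := by
  classical
  have h1 : Fintype.card E ≤ Fintype.card P := by simpa using h
  obtain ⟨f⟩ := Function.Embedding.nonempty_of_card_le h1
  refine ⟨fun p => if h : ∃ d : E, (f d : ℕ) = p then (h.choose : ℕ) else 0, ?_⟩
  intro d hd
  refine ⟨f ⟨d, hd⟩, (f ⟨d, hd⟩).2, ?_⟩
  have h2 : ∃ d' : E, (f d' : ℕ) = (f ⟨d, hd⟩ : ℕ) := ⟨⟨d, hd⟩, rfl⟩
  beta_reduce
  rw [dif_pos h2]
  have h3 := h2.choose_spec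
  have h4 : h2.choose = ⟨d, hd⟩ := f.injective (Subtype.ext h3)
  rw [h4]

/-- the integers `m ≤ y` of a class modulo the product of all the primes used -/
lemma crt_cover (y W : ℕ) (D : Finset ℕ) (b : ℕ) (c : ℕ → ℕ) (P : Finset ℕ)
    (hP : ∀ p ∈ P, p.Prime ∧ 3 ≤ p ∧ p ≤ W) (hc : ∀ d ∈ D, ∃ p ∈ P, d % p = c p % p) :
    y / (2 * ∏ p ∈ P, p) ≤
      ((range (y + 1)).filter (fun m => m % 2 = b % 2 ∧ ∀ d ∈ D, d ≤ m → ¬ (m - d).Prime)).card
        + D.card * W := by
  classical
  have h2P : 2 ∉ P := fun h => by have := (hP 2 h).2.1; omega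
  set P' := insert 2 P with hP'
  set c' : ℕ → ℕ := fun p => if p = 2 then b else c p with hc'
  have hprime : ∀ p ∈ P', p.Prime := by
    intro p hp
    rcases mem_insert.1 hp with h | h
    · rw [h]; exact Nat.prime_two
    · exact (hP p h).1
  have hco : Set.Pairwise (↑P' : Set ℕ) (Function.onFun Nat.Coprime (fun p : ℕ => p)) := by
    intro p hp q hq hpq
    exact (Nat.coprime_primes (hprime p hp) (hprime q hq)).2 hpq
  obtain ⟨k, hk⟩ := Nat.chineseRemainderOfFinset c' (fun p => p) P' (fun p hp => (hprime p hp).ne_zero) hco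
  have hQ : 2 * ∏ p ∈ P, p = ∏ p ∈ P', p := by rw [hP', prod_insert h2P]
  set Q := ∏ p ∈ P', p with hQdef
  rw [hQ]
  have hQpos : 0 < Q := prod_pos fun p hp => (hprime p hp).pos
  -- the progression
  have hmap : ∀ j ∈ range (y / Q), k % Q + Q * j ∈
      ((range (y + 1)).filter (fun m => m % 2 = b % 2 ∧ ∀ d ∈ D, d ≤ m → ¬ (m - d).Prime))
        ∪ (D ×ˢ P).image (fun q => q.1 + q.2) := by
    intro j hj
    rw [mem_range] at hj
    set m := k % Q + Q * j with hm
    have hmy : m ≤ y := by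
      have h1 : k % Q < Q := Nat.mod_lt _ hQpos
      have h2 : Q * (j + 1) ≤ Q * (y / Q) := Nat.mul_le_mul_left _ hj
      have h3 : Q * (y / Q) ≤ y := Nat.mul_div_le _ _
      rw [Nat.mul_add] at h2
      omega
    have hmod : ∀ p ∈ P', m % p = c' p % p := by
      intro p hp
      have h1 : p ∣ Q := dvd_prod_of_mem _ hp
      have h2 : m ≡ k [MOD p] := by
        have h3 : m ≡ k [MOD Q] := by
          rw [Nat.ModEq, hm, Nat.add_mul_mod_self_left, Nat.mod_mod]
        exact h3.of_dvd h1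
      exact h2.trans (hk p hp)
    rw [mem_union]
    by_cases hbad : ∃ d ∈ D, d ≤ m ∧ (m - d).Prime
    · right
      obtain ⟨d, hd, hdm, hpr⟩ := hbad
      obtain ⟨p, hp, hdp⟩ := hc d hd
      have h1 : m % p = c p % p := by
        rw [hmod p (mem_insert_of_mem hp), hc']
        have : p ≠ 2 := fun h => h2P (h ▸ hp)
        simp [this]
      have h2 : p ∣ m - d := by
        rw [← Nat.modEq_iff_dvd' hdm]
        exact hdp.trans h1.symm
      have h3 : p = m - d := (Nat.prime_dvd_prime_iff_eq (hP p hp).1 hpr).1 h2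
      rw [mem_image]
      exact ⟨(d, p), mem_product.2 ⟨hd, hp⟩, by simp only; omega⟩
    · left
      push Not at hbad
      rw [mem_filter, mem_range]
      refine ⟨by omega, ?_, fun d hd hdm => hbad d hd hdm⟩
      have := hmod 2 (mem_insert_self _ _)
      rw [this, hc']; simp
  have hinj : Set.InjOn (fun j => k % Q + Q * j) (↑(range (y / Q)) : Set ℕ) := by
    intro i _ j _ hij
    simp only [add_right_inj] at hij
    exact Nat.eq_of_mul_eq_mul_left hQpos hij
  have h1 := card_le_card_of_injOn (fun j => k % Q + Q * j) hmap hinj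
  rw [card_range] at h1
  refine h1.trans ((card_union_le _ _).trans ?_)
  apply Nat.add_le_add_left
  refine card_image_le.trans ?_
  rw [card_product]
  apply Nat.mul_le_mul_left
  calc P.card ≤ (Icc 1 W).card := by
        apply card_le_card
        intro p hp
        rw [mem_Icc]
        exact ⟨by have := (hP p hp).2.1; omega, (hP p hp).2.2⟩
    _ = W := by rw [Nat.card_Icc]; omega

lemma PP_event (δ : ℝ) (hδ : 0 < δ) : ∀ᶠ z : ℕ in atTop, PP z * Real.log z ≤ (1 + δ) / kappa := by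
  have h1 : 1 / kappa < (1 + δ) / kappa := by
    apply div_lt_div_of_pos_right _ kappa_pos
    linarith
  filter_upwards [PP_tendsto.eventually (gt_mem_nhds h1)] with z hz
  exact hz.le

lemma theta_event (δ : ℝ) (hδ : 0 < δ) : ∀ᶠ w : ℕ in atTop,
    ∑ p ∈ (Icc 3 w).filter Nat.Prime, Real.log p + Real.log 2 ≤ (1 + δ) * w := by
  have h := (Pool.Agent.Cov.PNT.theta_div_tendsto.comp (tendsto_natCast_atTop_atTop (R := ℝ))).eventually
    (gt_mem_nhds (show (1 : ℝ) < 1 + δ by linarith))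
  filter_upwards [h, eventually_ge_atTop 2] with w hw hw2
  simp only [Function.comp_apply] at hw
  have hwpos : (0 : ℝ) < w := by exact_mod_cast (by omega : 0 < w)
  rw [div_lt_iff₀ hwpos] at hw
  have h1 : Chebyshev.theta (w : ℝ) = ∑ p ∈ (Icc 3 w).filter Nat.Prime, Real.log p + Real.log 2 := by
    rw [Chebyshev.theta, Nat.floor_natCast]
    have h2 : (Ioc 0 w).filter Nat.Prime = insert 2 ((Icc 3 w).filter Nat.Prime) := by
      ext x
      simp only [mem_filter, mem_Ioc, mem_insert, mem_Icc]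
      constructor
      · rintro ⟨⟨a, b⟩, c⟩
        have := c.two_le
        by_cases h : x = 2
        · exact Or.inl h
        · exact Or.inr ⟨⟨by omega, b⟩, c⟩
      · rintro (h | ⟨⟨a, b⟩, c⟩)
        · subst h; exact ⟨⟨by omega, hw2⟩, Nat.prime_two⟩
        · exact ⟨⟨by omega, b⟩, c⟩
    rw [h2, sum_insert (by simp)]
    push_cast
    ring
  linarith

lemma pi_event (δ : ℝ) (hδ : 0 < δ) : ∀ᶠ w : ℕ in atTop,
    (1 - δ) * w ≤ (Nat.primeCounting w : ℝ) * Real.log w := by
  have h := (Pool.Agent.Cov.PNT.pi_tendsto.comp (tendsto_natCast_atTop_atTop (R := ℝ))).eventually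
    (lt_mem_nhds (show 1 - δ < (1 : ℝ) by linarith))
  filter_upwards [h, eventually_ge_atTop 2] with w hw hw2
  simp only [Function.comp_apply, Nat.floor_natCast] at hw
  have hwpos : (0 : ℝ) < w := by exact_mod_cast (by omega : 0 < w)
  rw [lt_div_iff₀ hwpos] at hw
  exact hw.le

lemma pow_event (δ : ℝ) (hδ : 0 < δ) : ∀ᶠ w : ℕ in atTop, (w : ℝ) ^ (1 - δ) * Real.log w ≤ δ * w := by
  have h := (isLittleO_log_rpow_atTop hδ).bound hδ
  filter_upwards [(tendsto_natCast_atTop_atTop (R := ℝ)).eventually h, eventually_ge_atTop 2] with w hw hw2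
  have hwpos : (1 : ℝ) < w := by exact_mod_cast (by omega : 1 < w)
  have hlog : 0 < Real.log w := Real.log_pos hwpos
  rw [Real.norm_of_nonneg hlog.le, Real.norm_of_nonneg (by positivity)] at hw
  calc (w : ℝ) ^ (1 - δ) * Real.log w ≤ (w : ℝ) ^ (1 - δ) * (δ * (w : ℝ) ^ δ) :=
        mul_le_mul_of_nonneg_left hw (by positivity)
    _ = δ * ((w : ℝ) ^ (1 - δ) * (w : ℝ) ^ δ) := by ring
    _ = δ * w := by rw [← Real.rpow_add (by linarith)]; norm_num

lemma V_tendsto (δ : ℝ) (hδ : δ < 1) : Tendsto (fun w : ℕ => ⌊(w : ℝ) ^ (1 - δ)⌋₊) atTop atTop :=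
  tendsto_nat_floor_atTop.comp ((tendsto_rpow_atTop (by linarith)).comp tendsto_natCast_atTop_atTop)

lemma V_event (δ : ℝ) (hδ : 0 < δ) (hδ1 : δ < 1) : ∀ᶠ w : ℕ in atTop,
    (1 - 2 * δ) * Real.log w ≤ Real.log (⌊(w : ℝ) ^ (1 - δ)⌋₊ : ℕ) := by
  have h1 := ((tendsto_rpow_atTop hδ).comp (tendsto_natCast_atTop_atTop (R := ℝ))).eventually
    (eventually_ge_atTop 2)
  have h2 := ((tendsto_rpow_atTop (show 0 < 1 - δ by linarith)).comp
    (tendsto_natCast_atTop_atTop (R := ℝ))).eventually (eventually_ge_atTop 2)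
  filter_upwards [h1, h2, eventually_ge_atTop 2] with w hw hw' hw2
  simp only [Function.comp_apply] at hw hw'
  have hwpos : (1 : ℝ) < w := by exact_mod_cast (by omega : 1 < w)
  have hw0 : (0 : ℝ) < w := by linarith
  have h3 : (w : ℝ) ^ (1 - δ) / 2 ≤ (⌊(w : ℝ) ^ (1 - δ)⌋₊ : ℕ) := by
    have := Nat.lt_floor_add_one ((w : ℝ) ^ (1 - δ))
    linarith
  have h4 : (w : ℝ) ^ (1 - 2 * δ) ≤ (w : ℝ) ^ (1 - δ) / 2 := by
    have h5 : (w : ℝ) ^ (1 - δ) = (w : ℝ) ^ (1 - 2 * δ) * (w : ℝ) ^ δ := by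
      rw [← Real.rpow_add hw0]; congr 1; ring
    have h6 : (0 : ℝ) ≤ (w : ℝ) ^ (1 - 2 * δ) := by positivity
    rw [h5]
    linarith [mul_le_mul_of_nonneg_left hw h6]
  have h7 : Real.log ((w : ℝ) ^ (1 - 2 * δ)) ≤ Real.log (⌊(w : ℝ) ^ (1 - δ)⌋₊ : ℕ) :=
    Real.log_le_log (by positivity) (h4.trans h3)
  rwa [Real.log_rpow hw0] at h7

lemma exp_event (ε : ℝ) (hε : 0 < ε) : ∀ᶠ y : ℕ in atTop,
    2 + kappa * Real.log y ^ 2 ≤ Real.exp (ε / 2 * Real.log y) := by
  have hlog : Tendsto (fun X : ℕ => ε / 2 * Real.log X) atTop atTop :=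
    (Real.tendsto_log_atTop.comp tendsto_natCast_atTop_atTop).const_mul_atTop (by positivity)
  have hk := kappa_pos
  have h := (Real.tendsto_pow_mul_exp_neg_atTop_nhds_zero 2).const_mul (2 + kappa * (2 / ε) ^ 2)
  rw [mul_zero] at h
  filter_upwards [hlog.eventually (h.eventually (gt_mem_nhds (zero_lt_one))),
    hlog.eventually (eventually_ge_atTop 1)] with y hy hy1
  set t := ε / 2 * Real.log y with ht
  have h1 : (2 + kappa * (2 / ε) ^ 2) * t ^ 2 ≤ Real.exp t := by
    have h2 := mul_lt_mul_of_pos_right hy (Real.exp_pos t)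
    have h3 : (2 + kappa * (2 / ε) ^ 2) * (t ^ 2 * Real.exp (-t)) * Real.exp t
        = (2 + kappa * (2 / ε) ^ 2) * t ^ 2 := by
      rw [Real.exp_neg]; field_simp
    linarith
  have h4 : kappa * (2 / ε) ^ 2 * t ^ 2 = kappa * Real.log y ^ 2 := by
    rw [ht]; field_simp
  have h5 : 2 ≤ 2 * t ^ 2 := by nlinarith
  linarith [h1, h4, h5, add_mul 2 (kappa * (2 / ε) ^ 2) (t ^ 2)]

lemma aux_arith {δ s : ℝ} (hδ : 0 < δ) (hδ' : δ ≤ 1 / 20) (hs : 1 ≤ δ * s) :
    (1 + δ) * s ≤ (1 - 2 * δ) * ((1 - 2 * δ) * ((1 + 8 * δ) * s - 1)) := by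
  have h1 : 0 ≤ δ * s := by positivity
  have h2 : 0 ≤ (1 / 20 - δ) * (δ * s) := mul_nonneg (by linarith) h1
  have h3 : 0 ≤ δ ^ 2 * (δ * s) := by positivity
  have h4 : 0 ≤ δ * (1 - δ) := mul_nonneg hδ.le (by linarith)
  nlinarith

/-- **Covering lemma.** If `D` is small and misses a class modulo every odd prime `p ≤ log y`, then many
integers `m ≤ y` of prescribed parity are not of the form `d + prime`, `d ∈ D`. -/
theorem cover (lam ε : ℝ) (h0 : 0 < lam) (h1 : lam < 1) (hε : 0 < ε) (hε1 : ε < 1 - lam) :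
    ∀ᶠ y : ℕ in atTop, ∀ (a : ℕ → ℕ) (D : Finset ℕ) (b : ℕ), (D.card : ℝ) ≤ lam * kappa * Real.log y →
      (∀ p : ℕ, p.Prime → 3 ≤ p → (p : ℝ) ≤ Real.log y → ∀ d ∈ D, d % p ≠ a p % p) →
      (y : ℝ) ^ (1 - lam - ε) ≤
        (((range (y + 1)).filter
          (fun m => m % 2 = b % 2 ∧ ∀ d ∈ D, d ≤ m → ¬ (m - d).Prime)).card : ℝ) := by
  classical
  obtain ⟨δ, hδ0, hδ1, hδ2, hδ3⟩ : ∃ δ : ℝ, 0 < δ ∧ δ ≤ 1 / 20 ∧ 8 * δ ≤ 1 - lam ∧ 20 * δ ≤ ε := by
    refine ⟨min (1 / 20) (min ((1 - lam) / 8) (ε / 20)), ?_, ?_, ?_, ?_⟩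
    · apply lt_min (by norm_num) (lt_min (by linarith) (by linarith))
    · exact min_le_left _ _
    · have := (min_le_right (1 / 20 : ℝ) (min ((1 - lam) / 8) (ε / 20))).trans (min_le_left _ _)
      linarith
    · have := (min_le_right (1 / 20 : ℝ) (min ((1 - lam) / 8) (ε / 20))).trans (min_le_right _ _)
      linarith
  have hlog : Tendsto (fun X : ℕ => Real.log X) atTop atTop :=
    Real.tendsto_log_atTop.comp tendsto_natCast_atTop_atTop
  have hW : Tendsto (fun y : ℕ => ⌊(1 + 8 * δ) * lam * Real.log y⌋₊) atTop atTop :=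
    tendsto_nat_floor_atTop.comp (hlog.const_mul_atTop (by positivity))
  have hV := V_tendsto δ (by linarith)
  filter_upwards [hW.eventually (pi_event δ hδ0), hW.eventually (pow_event δ hδ0),
    hW.eventually (theta_event δ hδ0), hW.eventually (V_event δ hδ0 (by linarith)),
    hW.eventually (hV.eventually (PP_event δ hδ0)), hW.eventually (eventually_ge_atTop 3),
    hW.eventually (hV.eventually (eventually_ge_atTop 2)), exp_event ε hε,
    (hlog.const_mul_atTop (show 0 < δ * lam by positivity)).eventually (eventually_ge_atTop 1),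
    hlog.eventually (eventually_ge_atTop 1)]
    with y E1 E2 E3 E4 E5 E6 E6' E7 E8 E9
  intro a D b hcard hD
  set w := ⌊(1 + 8 * δ) * lam * Real.log y⌋₊ with hw
  set v := ⌊(w : ℝ) ^ (1 - δ)⌋₊ with hv
  set ly := Real.log y with hly
  have hwup : (w : ℝ) ≤ (1 + 8 * δ) * lam * ly := Nat.floor_le (by positivity)
  have hwlow : (1 + 8 * δ) * lam * ly - 1 ≤ w := by
    have := Nat.lt_floor_add_one ((1 + 8 * δ) * lam * ly)
    rw [← hw] at this; linarith
  have hlam8 : (1 + 8 * δ) * lam ≤ 1 := by nlinarith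
  have hwly : (w : ℝ) ≤ ly := hwup.trans (by
    have := mul_le_mul_of_nonneg_right hlam8 (show 0 ≤ ly by linarith)
    linarith)
  have hw3 : (3 : ℝ) ≤ w := by exact_mod_cast E6
  have hlogw : 1 ≤ Real.log w := by
    rw [Real.le_log_iff_exp_le (by linarith)]
    have := Real.exp_one_lt_d9
    linarith
  have hvw : v ≤ w := by
    have h2 : (w : ℝ) ^ (1 - δ) ≤ w := by
      nth_rewrite 2 [← Real.rpow_one (w : ℝ)]
      exact Real.rpow_le_rpow_of_exponent_le (by linarith) (by linarith)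
    have h3 : (v : ℝ) ≤ (w : ℝ) ^ (1 - δ) := Nat.floor_le (by positivity)
    exact_mod_cast h3.trans h2
  set P1 := (Icc 3 v).filter Nat.Prime with hP1
  set P2 := (Ioc v w).filter Nat.Prime with hP2
  set P := (Icc 3 w).filter Nat.Prime with hP
  obtain ⟨c, E, hED, hc, hEc⟩ := greedy a D P1 (fun p hp => (mem_Icc.1 (mem_filter.1 hp).1).1) (by
    intro p hp d hd
    have h2 := mem_Icc.1 (mem_filter.1 hp).1
    refine hD p (mem_filter.1 hp).2 h2.1 ?_ d hd
    have : (p : ℝ) ≤ w := by exact_mod_cast h2.2.trans hvw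
    linarith)
  -- the number of the remaining elements
  have hk := kappa_pos
  have hPPv : ∏ p ∈ P1, (1 - 1 / ((p : ℝ) - 1)) = PP v := rfl
  rw [hPPv] at hEc
  have hE1 : (E.card : ℝ) * ((1 - 2 * δ) * Real.log w) ≤ lam * ly * (1 + δ) := by
    calc (E.card : ℝ) * ((1 - 2 * δ) * Real.log w) ≤ (E.card : ℝ) * Real.log v :=
          mul_le_mul_of_nonneg_left E4 (Nat.cast_nonneg _)
      _ ≤ (D.card * PP v) * Real.log v := by
          apply mul_le_mul_of_nonneg_right hEc
          apply Real.log_nonneg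
          have : (2 : ℝ) ≤ v := by exact_mod_cast E6'
          linarith
      _ = D.card * (PP v * Real.log v) := by ring
      _ ≤ D.card * ((1 + δ) / kappa) := mul_le_mul_of_nonneg_left E5 (Nat.cast_nonneg _)
      _ ≤ (lam * kappa * ly) * ((1 + δ) / kappa) := mul_le_mul_of_nonneg_right hcard (by positivity)
      _ = lam * ly * (1 + δ) := by field_simp
  have hP2c : (1 - 2 * δ) * w ≤ (P2.card : ℝ) * Real.log w := by
    have h2 : Nat.primeCounting w ≤ P2.card + v := by
      rw [Nat.primeCounting, Nat.primeCounting', Nat.count_eq_card_filter_range]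
      refine le_trans (card_le_card (t := P2 ∪ Icc 1 v) ?_) ?_
      · intro p hp
        rw [mem_filter, mem_range] at hp
        rw [mem_union, hP2, mem_filter, mem_Ioc, mem_Icc]
        by_cases h : p ≤ v
        · exact Or.inr ⟨hp.2.one_lt.le, h⟩
        · exact Or.inl ⟨⟨by omega, by omega⟩, hp.2⟩
      · have h5 := card_union_le P2 (Icc 1 v)
        rw [Nat.card_Icc] at h5
        omega
    have h3 : (Nat.primeCounting w : ℝ) ≤ P2.card + v := by exact_mod_cast h2
    have h4 : (v : ℝ) ≤ (w : ℝ) ^ (1 - δ) := Nat.floor_le (by positivity)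
    have h5 : (v : ℝ) * Real.log w ≤ δ * w :=
      (mul_le_mul_of_nonneg_right h4 (by linarith)).trans E2
    have h6 := mul_le_mul_of_nonneg_right h3 (show 0 ≤ Real.log w by linarith)
    have h7 : ((P2.card : ℝ) + v) * Real.log w = P2.card * Real.log w + v * Real.log w := by ring
    linarith
  have hEP : E.card ≤ P2.card := by
    have h2 : (E.card : ℝ) * ((1 - 2 * δ) * Real.log w) ≤ (P2.card : ℝ) * ((1 - 2 * δ) * Real.log w) := by
      calc (E.card : ℝ) * ((1 - 2 * δ) * Real.log w) ≤ lam * ly * (1 + δ) := hE1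
        _ = (1 + δ) * (lam * ly) := by ring
        _ ≤ (1 - 2 * δ) * ((1 - 2 * δ) * ((1 + 8 * δ) * (lam * ly) - 1)) :=
            aux_arith hδ0 hδ1 (by linarith)
        _ ≤ (1 - 2 * δ) * ((1 - 2 * δ) * w) := by
            apply mul_le_mul_of_nonneg_left _ (by linarith)
            apply mul_le_mul_of_nonneg_left _ (by linarith)
            linarith
        _ ≤ (1 - 2 * δ) * ((P2.card : ℝ) * Real.log w) :=
            mul_le_mul_of_nonneg_left hP2c (by linarith)
        _ = _ := by ring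
    have h3 : 0 < (1 - 2 * δ) * Real.log w := mul_pos (by linarith) (by linarith)
    have h4 := le_of_mul_le_mul_right h2 h3
    exact_mod_cast h4
  obtain ⟨g, hg⟩ := assign E P2 hEP
  have hcr := crt_cover y w D b (fun p => if p ≤ v then c p else g p) P (by
    intro p hp
    rw [hP, mem_filter, mem_Icc] at hp
    exact ⟨hp.2, hp.1.1, hp.1.2⟩) (by
    intro d hd
    by_cases hdE : d ∈ E
    · obtain ⟨p, hp, hgp⟩ := hg d hdE
      rw [hP2, mem_filter, mem_Ioc] at hp
      refine ⟨p, ?_, ?_⟩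
      · rw [hP, mem_filter, mem_Icc]; exact ⟨⟨by omega, hp.1.2⟩, hp.2⟩
      · have : ¬ p ≤ v := by omega
        simp only [this, if_false, hgp]
    · obtain ⟨p, hp, hcp⟩ := hc d hd hdE
      rw [hP1, mem_filter, mem_Icc] at hp
      refine ⟨p, ?_, ?_⟩
      · rw [hP, mem_filter, mem_Icc]; exact ⟨⟨hp.1.1, by omega⟩, hp.2⟩
      · simp only [hp.1.2, if_true, hcp])
  set N := ((range (y + 1)).filter (fun m => m % 2 = b % 2 ∧ ∀ d ∈ D, d ≤ m → ¬ (m - d).Prime)).card
    with hN
  have hypos : (0 : ℝ) < y := by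
    rcases Nat.eq_zero_or_pos y with h | h
    · rw [hly, h] at E9; norm_num at E9
    · exact_mod_cast h
  have hexpy : Real.exp ly = y := Real.exp_log hypos
  have hQpos : (0 : ℝ) < ((2 * ∏ p ∈ P, p : ℕ) : ℝ) := by
    have : 0 < 2 * ∏ p ∈ P, p := by
      apply Nat.mul_pos (by norm_num)
      exact prod_pos fun p hp => (mem_filter.1 hp).2.pos
    exact_mod_cast this
  have hQ : Real.log ((2 * ∏ p ∈ P, p : ℕ) : ℝ) ≤ (lam + ε / 2) * ly := by
    have h2 : Real.log ((2 * ∏ p ∈ P, p : ℕ) : ℝ) = ∑ p ∈ P, Real.log p + Real.log 2 := by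
      push_cast
      rw [Real.log_mul (by norm_num), Real.log_prod]
      · ring
      · intro p hp
        have := (mem_filter.1 hp).2.pos
        positivity
      · apply prod_ne_zero_iff.2
        intro p hp
        have := (mem_filter.1 hp).2.pos
        positivity
    rw [h2]
    refine E3.trans ?_
    calc (1 + δ) * (w : ℝ) ≤ (1 + δ) * ((1 + 8 * δ) * lam * ly) :=
          mul_le_mul_of_nonneg_left hwup (by linarith)
      _ = ((1 + δ) * (1 + 8 * δ) * lam) * ly := by ring
      _ ≤ (lam + ε / 2) * ly := by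
          apply mul_le_mul_of_nonneg_right _ (by linarith)
          have h3 : (1 + δ) * (1 + 8 * δ) ≤ 1 + 10 * δ := by nlinarith
          have h4 : (1 + δ) * (1 + 8 * δ) * lam ≤ (1 + 10 * δ) * lam :=
            mul_le_mul_of_nonneg_right h3 h0.le
          nlinarith
  have hdiv : Real.exp ((1 - lam - ε / 2) * ly) ≤ (y : ℝ) / ((2 * ∏ p ∈ P, p : ℕ) : ℝ) := by
    rw [le_div_iff₀ hQpos]
    have h2 : ((2 * ∏ p ∈ P, p : ℕ) : ℝ) ≤ Real.exp ((lam + ε / 2) * ly) := by
      rw [← Real.log_le_iff_le_exp hQpos]; exact hQ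
    calc Real.exp ((1 - lam - ε / 2) * ly) * ((2 * ∏ p ∈ P, p : ℕ) : ℝ)
        ≤ Real.exp ((1 - lam - ε / 2) * ly) * Real.exp ((lam + ε / 2) * ly) :=
          mul_le_mul_of_nonneg_left h2 (Real.exp_pos _).le
      _ = Real.exp ly := by rw [← Real.exp_add]; congr 1; ring
      _ = y := hexpy
  have hnat : (y : ℝ) / ((2 * ∏ p ∈ P, p : ℕ) : ℝ) - 1 ≤ N + D.card * w := by
    have h2 : (y : ℝ) / ((2 * ∏ p ∈ P, p : ℕ) : ℝ) < ((y / (2 * ∏ p ∈ P, p) : ℕ) : ℝ) + 1 := by
      have := Nat.lt_floor_add_one ((y : ℝ) / ((2 * ∏ p ∈ P, p : ℕ) : ℝ))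
      rwa [Nat.floor_div_natCast, Nat.floor_natCast] at this
    have h3 : ((y / (2 * ∏ p ∈ P, p) : ℕ) : ℝ) ≤ N + D.card * w := by exact_mod_cast hcr
    linarith
  have hDw : (D.card : ℝ) * w ≤ kappa * ly ^ 2 := by
    calc (D.card : ℝ) * w ≤ (lam * kappa * ly) * ly := by
          apply mul_le_mul hcard hwly (by positivity) (by positivity)
      _ = lam * (kappa * ly ^ 2) := by ring
      _ ≤ 1 * (kappa * ly ^ 2) := mul_le_mul_of_nonneg_right h1.le (by positivity)
      _ = _ := one_mul _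
  have hmain : Real.exp ((1 - lam - ε) * ly) * (2 + kappa * ly ^ 2) ≤ Real.exp ((1 - lam - ε / 2) * ly) := by
    have h2 : Real.exp ((1 - lam - ε / 2) * ly) = Real.exp ((1 - lam - ε) * ly) * Real.exp (ε / 2 * ly) := by
      rw [← Real.exp_add]; congr 1; ring
    rw [h2]
    exact mul_le_mul_of_nonneg_left E7 (Real.exp_pos _).le
  have hone : 1 ≤ Real.exp ((1 - lam - ε) * ly) := Real.one_le_exp (mul_nonneg (by linarith) (by linarith))
  have hpow : (y : ℝ) ^ (1 - lam - ε) = Real.exp ((1 - lam - ε) * ly) := by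
    rw [Real.rpow_def_of_pos hypos]; congr 1; ring
  rw [hpow]
  have hfin : Real.exp ((1 - lam - ε) * ly) + (1 + kappa * ly ^ 2)
      ≤ Real.exp ((1 - lam - ε) * ly) * (2 + kappa * ly ^ 2) := by
    have h2 : 0 ≤ 1 + kappa * ly ^ 2 := by positivity
    nlinarith [mul_le_mul_of_nonneg_right hone h2]
  linarith

end Pool.Agent.H560.CL
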