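import Mathlib
import Pool.Agent.H560.CL.Cover

/-!
# Few exceptions force many primes at all distances below `n`
-/

set_option autoImplicit false

namespace Pool.Agent.H560.CL

open Finset Filter Topology

open Classical in
/-- The number of the even `h`, `n - M ≤ h ≤ n`, `h ≥ 1`, which are not differences `p - q` of primes
`p, q ≤ n`. -/
noncomputable def exceptions (M : ℝ) (n : ℕ) : ℕ :=
  ((Icc 1 n).filter (fun h : ℕ => (n : ℝ) - M ≤ (h : ℝ) ∧ Even h ∧
    ¬ ∃ p q : ℕ, p.Prime ∧ q.Prime ∧ p ≤ n ∧ q ≤ n ∧ p = q + h)).card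

/-- the `d ≤ M` with `n - d` prime -/
def DD (M n : ℕ) : Finset ℕ := (range (M + 1)).filter (fun d => d ≤ n ∧ (n - d).Prime)

lemma uncovered_le (M : ℝ) (y n : ℕ) (hyM : (y : ℝ) ≤ M) (hyn : y < n) :
    ((range (y + 1)).filter (fun m => m % 2 = n % 2 ∧ ∀ d ∈ DD y n, d ≤ m → ¬ (m - d).Prime)).card
      ≤ exceptions M n := by
  classical
  unfold exceptions
  apply card_le_card_of_injOn (fun m => n - m)
  · intro m hm
    rw [mem_coe, mem_filter, mem_range] at hm
    obtain ⟨hm1, hm2, hm3⟩ := hm
    rw [mem_coe, mem_filter, mem_Icc]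
    beta_reduce
    have hmn : m ≤ n := by omega
    refine ⟨⟨by omega, by omega⟩, ?_, ?_, ?_⟩
    · rw [Nat.cast_sub hmn]
      have : (m : ℝ) ≤ y := by exact_mod_cast (by omega : m ≤ y)
      linarith
    · rw [Nat.even_iff]; omega
    · rintro ⟨p, q, hp, hq, hpn, hqn, hpq⟩
      have hd : n - p ∈ DD y n := by
        rw [DD, mem_filter, mem_range]
        refine ⟨by omega, by omega, ?_⟩
        have : n - (n - p) = p := by omega
        rwa [this]
      refine hm3 (n - p) hd (by omega) ?_
      have : m - (n - p) = q := by omega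
      rwa [this]
  · intro m hm m' hm' h
    rw [mem_coe, mem_filter, mem_range] at hm hm'
    simp only at h
    omega

lemma floor_log_event (t s : ℝ) (ht : 0 < t) (hst : s < t) : ∀ᶠ X : ℕ in atTop,
    s * Real.log (Real.log X) ≤ Real.log (⌊(Real.log X) ^ t⌋₊ : ℕ) := by
  have hlog : Tendsto (fun X : ℕ => Real.log X) atTop atTop :=
    Real.tendsto_log_atTop.comp tendsto_natCast_atTop_atTop
  have h1 := ((tendsto_rpow_atTop (show 0 < t - s by linarith)).comp hlog).eventually
    (eventually_ge_atTop 2)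
  have h2 := ((tendsto_rpow_atTop ht).comp hlog).eventually (eventually_ge_atTop 2)
  filter_upwards [h1, h2, hlog.eventually (eventually_gt_atTop 1)] with X h1 h2 h3
  simp only [Function.comp_apply] at h1 h2
  set l := Real.log X with hl
  have hl0 : (0 : ℝ) < l := by linarith
  have h4 : l ^ t / 2 ≤ (⌊l ^ t⌋₊ : ℕ) := by
    have := Nat.lt_floor_add_one (l ^ t)
    linarith
  have h5 : l ^ s ≤ l ^ t / 2 := by
    have h5 : l ^ t = l ^ s * l ^ (t - s) := by
      rw [← Real.rpow_add hl0]; congr 1; ring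
    have h6 : (0 : ℝ) ≤ l ^ s := by positivity
    rw [h5]
    linarith [mul_le_mul_of_nonneg_left h1 h6]
  have h7 : Real.log (l ^ s) ≤ Real.log (⌊l ^ t⌋₊ : ℕ) :=
    Real.log_le_log (by positivity) (h5.trans h4)
  rwa [Real.log_rpow hl0] at h7

/-- If there are few exceptions, then there are many primes `n - d`, `d ≤ (log X) ^ t`. -/
theorem scale (θ t s : ℝ) (hθ : 0 ≤ θ) (hθt : θ < t) (ht1 : t ≤ 1) (hs0 : 0 ≤ s) (hs : s < t - θ) :
    ∀ᶠ X : ℕ in atTop, ∀ n : ℕ, X < n ^ 2 → (exceptions (Real.log X) n : ℝ) ≤ (Real.log X) ^ θ →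
      s * kappa * Real.log (Real.log X) < ((DD ⌊(Real.log X) ^ t⌋₊ n).card : ℝ) := by
  have ht : 0 < t := by linarith
  -- the parameters
  set lam := (s + (t - θ)) / (2 * t) with hlam
  have hlam0 : 0 < lam := by rw [hlam]; apply div_pos <;> linarith
  have hlamt : lam * t = (s + (t - θ)) / 2 := by rw [hlam]; field_simp
  have hlam1 : lam < 1 := by
    by_contra hcon
    push Not at hcon
    have := mul_le_mul_of_nonneg_right hcon ht.le
    linarith
  have hlamθ : θ < (1 - lam) * t := by
    have : (1 - lam) * t = t - lam * t := by ring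
    rw [this, hlamt]; linarith
  set ε := ((1 - lam) * t - θ) / (2 * t) with hε
  have hε0 : 0 < ε := by rw [hε]; apply div_pos <;> linarith
  have hεt : ε * t = ((1 - lam) * t - θ) / 2 := by rw [hε]; field_simp
  have hε1 : ε < 1 - lam := by
    have h1 : ε * t < (1 - lam) * t := by rw [hεt]; linarith
    exact lt_of_mul_lt_mul_right h1 ht.le
  have hexp : θ < (1 - lam - ε) * t := by
    have : (1 - lam - ε) * t = (1 - lam) * t - ε * t := by ring
    rw [this, hεt]; linarith
  have hsl : s / lam < t := by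
    rw [div_lt_iff₀ hlam0, mul_comm, hlamt]; linarith
  have hlog : Tendsto (fun X : ℕ => Real.log X) atTop atTop :=
    Real.tendsto_log_atTop.comp tendsto_natCast_atTop_atTop
  have hY : Tendsto (fun X : ℕ => ⌊(Real.log X) ^ t⌋₊) atTop atTop :=
    tendsto_nat_floor_atTop.comp ((tendsto_rpow_atTop ht).comp hlog)
  have hXl : ∀ᶠ X : ℕ in atTop, (2 * Real.log X + 1) ^ 2 ≤ (X : ℝ) := by
    have h1 := (Real.tendsto_pow_mul_exp_neg_atTop_nhds_zero 2).const_mul 9
    rw [mul_zero] at h1
    filter_upwards [hlog.eventually (h1.eventually (gt_mem_nhds (zero_lt_one))),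
      hlog.eventually (eventually_ge_atTop 1), eventually_ge_atTop 1] with X h2 h3 h4
    have hX : (0 : ℝ) < X := by exact_mod_cast (by omega : 0 < X)
    have h5 := mul_lt_mul_of_pos_right h2 (Real.exp_pos (Real.log X))
    have h6 : 9 * (Real.log X ^ 2 * Real.exp (-Real.log X)) * Real.exp (Real.log X) = 9 * Real.log X ^ 2 := by
      rw [Real.exp_neg]; field_simp
    rw [h6, Real.exp_log hX] at h5
    nlinarith
  filter_upwards [hY.eventually (cover lam ε hlam0 hlam1 hε0 hε1),
    floor_log_event t (s / lam) ht hsl, floor_log_event t (θ / (1 - lam - ε) + (t - θ / (1 - lam - ε)) / 2) ht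
      (by
        have h1 : θ / (1 - lam - ε) < t := by
          rw [div_lt_iff₀ (by linarith)]; linarith
        linarith),
    hXl, hlog.eventually (eventually_gt_atTop (Real.exp 1)), hY.eventually (eventually_ge_atTop 2)]
    with X hcov hf1 hf2 hXl hl1 hY2
  intro n hn hexc
  by_contra hcon
  push Not at hcon
  set y := ⌊(Real.log X) ^ t⌋₊ with hy
  set L := Real.log (Real.log X) with hL
  have hlX0 : 0 < Real.log X := lt_trans (Real.exp_pos 1) hl1
  have hlX1 : 1 ≤ Real.log X := by
    have := Real.add_one_le_exp (1 : ℝ)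
    linarith
  have hL1 : 1 < L := by
    rw [hL, Real.lt_log_iff_exp_lt hlX0]; exact hl1
  have hyup : (y : ℝ) ≤ Real.log X := by
    have h1 : (y : ℝ) ≤ (Real.log X) ^ t := Nat.floor_le (by positivity)
    have h2 : (Real.log X) ^ t ≤ Real.log X := by
      nth_rewrite 2 [← Real.rpow_one (Real.log X)]
      exact Real.rpow_le_rpow_of_exponent_le hlX1 ht1
    linarith
  have hnlow : 2 * Real.log X + 1 < n := by
    have h1 : (X : ℝ) < (n : ℝ) ^ 2 := by exact_mod_cast hn
    have h2 : (2 * Real.log X + 1) ^ 2 < (n : ℝ) ^ 2 := by linarith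
    exact lt_of_pow_lt_pow_left₀ 2 (Nat.cast_nonneg n) h2
  have hyn : y < n := by
    have : (y : ℝ) < n := by linarith
    exact_mod_cast this
  have h1 : ((DD y n).card : ℝ) ≤ lam * kappa * Real.log y := by
    refine hcon.trans ?_
    have h2 := mul_le_mul_of_nonneg_left hf1 (show 0 ≤ lam * kappa by have := kappa_pos; positivity)
    calc s * kappa * L = lam * kappa * (s / lam * L) := by field_simp
      _ ≤ _ := h2
  have h2 := hcov (fun _ => n) (DD y n) n h1 (by
    intro p hp hp3 hply d hd heq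
    rw [DD, mem_filter, mem_range] at hd
    have h3 : p ∣ n - d := by
      rw [← Nat.modEq_iff_dvd' hd.2.1]; exact heq
    have h4 : p = n - d := (Nat.prime_dvd_prime_iff_eq hp hd.2.2).1 h3
    have h5 : (p : ℝ) ≤ Real.log X := by
      refine hply.trans ?_
      have h6 : (2 : ℝ) ≤ y := by exact_mod_cast hY2
      have h7 : Real.log y ≤ y := by
        have := Real.log_le_sub_one_of_pos (show (0 : ℝ) < y by linarith)
        linarith
      linarith
    have h6 : (p : ℝ) = n - d := by rw [h4, Nat.cast_sub hd.2.1]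
    have h7 : (d : ℝ) ≤ y := by exact_mod_cast (by omega : d ≤ y)
    linarith)
  have h3 := uncovered_le (Real.log X) y n hyup hyn
  have h4 : (y : ℝ) ^ (1 - lam - ε) ≤ (Real.log X) ^ θ := by
    have h5 : (((range (y + 1)).filter (fun m => m % 2 = n % 2 ∧ ∀ d ∈ DD y n, d ≤ m → ¬ (m - d).Prime)).card : ℝ)
        ≤ exceptions (Real.log X) n := by exact_mod_cast h3
    exact (h2.trans h5).trans hexc
  -- contradiction with the size of y
  have hy0 : (0 : ℝ) < y := by exact_mod_cast (by omega : 0 < y)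
  have h5 : (1 - lam - ε) * Real.log y ≤ θ * L := by
    have h6 := Real.log_le_log (by positivity) h4
    rwa [Real.log_rpow hy0, Real.log_rpow hlX0] at h6
  have hpos : 0 < 1 - lam - ε := by linarith
  have h6 := mul_le_mul_of_nonneg_left hf2 hpos.le
  have h7 : (1 - lam - ε) * ((θ / (1 - lam - ε) + (t - θ / (1 - lam - ε)) / 2) * L)
      = (θ + ((1 - lam - ε) * t - θ) / 2) * L := by
    field_simp
  rw [h7] at h6
  have h8 : θ * L < (θ + ((1 - lam - ε) * t - θ) / 2) * L := by
    apply mul_lt_mul_of_pos_right _ (by linarith)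
    linarith
  linarith

end Pool.Agent.H560.CL
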