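import Mathlib
import Pool.Agent.H560.CL.Brun
import Pool.Graph.R_seed8.H305R2.MertensM

/-!
# Upper bound for the number of the `n ≤ X` with `n - d` prime for all `d` in a small set
-/

set_option autoImplicit false

namespace Pool.Agent.H560.CL

open Finset Filter Topology

lemma ev_poly_exp (A : ℝ) (m : ℕ) : ∀ᶠ L : ℝ in atTop, A * L ^ m ≤ Real.exp L := by
  have h := (Real.tendsto_pow_mul_exp_neg_atTop_nhds_zero m).const_mul A
  rw [mul_zero] at h
  filter_upwards [h.eventually (gt_mem_nhds (zero_lt_one))] with L hL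
  have h1 : A * (L ^ m * Real.exp (-L)) * Real.exp L < 1 * Real.exp L :=
    mul_lt_mul_of_pos_right hL (Real.exp_pos L)
  have h2 : A * (L ^ m * Real.exp (-L)) * Real.exp L = A * L ^ m := by
    rw [Real.exp_neg]
    field_simp
  linarith

lemma ev_log_le (A B ε : ℝ) (hε : 0 < ε) : ∀ᶠ L : ℝ in atTop, A * L * (B + 3 * Real.log L) ≤ ε * L ^ 2 := by
  have h1 : Tendsto (fun L : ℝ => Real.log L / L) atTop (𝓝 0) :=
    Real.isLittleO_log_id_atTop.tendsto_div_nhds_zero
  have h2 : Tendsto (fun L : ℝ => B / L) atTop (𝓝 0) := tendsto_const_nhds.div_atTop tendsto_id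
  have h3 : Tendsto (fun L : ℝ => A * (B / L + 3 * (Real.log L / L))) atTop (𝓝 (A * (0 + 3 * 0))) :=
    ((h2.add (h1.const_mul 3)).const_mul A)
  have h4 : A * (0 + 3 * 0) < ε := by simpa using hε
  filter_upwards [h3.eventually (gt_mem_nhds h4), eventually_gt_atTop (0 : ℝ)] with L hL hL0
  have : A * L * (B + 3 * Real.log L) = (A * (B / L + 3 * (Real.log L / L))) * L ^ 2 := by
    field_simp
  rw [this]
  exact mul_le_mul_of_nonneg_right hL.le (by positivity)

lemma sum_inv_interval : ∃ N₀ : ℕ, ∀ Y z : ℕ, N₀ ≤ Y → Y ≤ z →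
    |∑ p ∈ (Finset.Ioc Y z).filter Nat.Prime, (1 : ℝ) / p
      - (Real.log (Real.log z) - Real.log (Real.log Y))| ≤ 1 := by
  obtain ⟨M, hM⟩ := Pool.Agent.H305R2.mertens_inv_tendsto
  obtain ⟨N₀, hN⟩ := (Metric.tendsto_atTop.1 hM) (1 / 2) (by norm_num)
  refine ⟨N₀, fun Y z hY hz => ?_⟩
  have h1 := hN Y hY
  have h2 := hN z (hY.trans hz)
  rw [Real.dist_eq] at h1 h2
  have hsplit : ∑ p ∈ (Finset.Icc 1 z).filter Nat.Prime, (1 : ℝ) / p
      = ∑ p ∈ (Finset.Icc 1 Y).filter Nat.Prime, (1 : ℝ) / p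
        + ∑ p ∈ (Finset.Ioc Y z).filter Nat.Prime, (1 : ℝ) / p := by
    rw [← Finset.sum_union]
    · congr 1
      ext p
      simp only [Finset.mem_filter, Finset.mem_union, Finset.mem_Icc, Finset.mem_Ioc]
      constructor
      · rintro ⟨⟨a, b⟩, c⟩
        by_cases h : p ≤ Y
        · exact Or.inl ⟨⟨a, h⟩, c⟩
        · exact Or.inr ⟨⟨by omega, b⟩, c⟩
      · rintro (⟨⟨a, b⟩, c⟩ | ⟨⟨a, b⟩, c⟩)
        · exact ⟨⟨a, b.trans hz⟩, c⟩
        · exact ⟨⟨c.one_lt.le, b⟩, c⟩
    · rw [Finset.disjoint_left]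
      intro p hp hp'
      simp only [Finset.mem_filter, Finset.mem_Icc, Finset.mem_Ioc] at hp hp'
      omega
  rw [hsplit] at h2
  rw [abs_lt] at h1 h2
  rw [abs_le]
  constructor <;> linarith [h1.1, h1.2, h2.1, h2.2]

lemma aux_a {C L : ℝ} (hC : 0 < C) (hL : 10 ≤ L) : (2 : ℝ) ≤ 2 * (C + 1) * L ^ 2 := by nlinarith [mul_nonneg hC.le (sq_nonneg L)]

lemma aux_b {C L : ℝ} (hC : 0 < C) (hL : 10 ≤ L) : 20 * (C + 1) * L ^ 2 ≥ 1 := by nlinarith [mul_nonneg hC.le (sq_nonneg L)]

lemma aux_c {C L r R : ℝ} (hL : 10 ≤ L) (h1 : 1000 * (C + 1) * L ^ 3 ≤ R)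
    (hC : 0 < C) (hrup : r ≤ 22 * (C + 1) * L ^ 2) : L ^ 1 * 5 * (8 * r) ≤ R := by
  have h2 : L * 40 * r ≤ L * 40 * (22 * (C + 1) * L ^ 2) :=
    mul_le_mul_of_nonneg_left hrup (by linarith)
  have h3 : (0 : ℝ) ≤ (C + 1) * L ^ 3 := by positivity
  nlinarith

lemma aux_d {k S a L e : ℝ} (hk : 0 ≤ k) (hS : L - a ≤ S) (h : k * a ≤ e) : -(k * S) ≤ -(k * L) + e := by
  nlinarith [mul_le_mul_of_nonneg_left hS hk]

lemma aux_e {C L n r : ℝ} (hC : 0 < C) (hlow : 20 * (C + 1) * L ^ 2 ≤ r) (hn : n = r + 1) :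
    8 * (C * L ^ 2) ≤ n := by
  rw [hn]; nlinarith [sq_nonneg L, mul_nonneg hC.le (sq_nonneg L)]

lemma aux_f {a n e : ℝ} (h : 8 * a ≤ n) (hn : 0 < n) (he : 1 / 8 ≤ e) : a ≤ e * n := by
  nlinarith

lemma aux_g : (1 / 8 : ℝ) ≤ Real.exp (-2) := by
  rw [Real.exp_neg, one_div]
  apply inv_anti₀ (Real.exp_pos 2)
  have h2 : Real.exp 2 = Real.exp 1 ^ 2 := by rw [← Real.exp_nat_mul]; norm_num
  have h3 : Real.exp 1 < 2.7182818286 := Real.exp_one_lt_d9
  rw [h2]
  nlinarith [Real.exp_pos 1]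

lemma aux_h {C L k : ℝ} (hL : 10 ≤ L) (hk : k ≤ C * L) : k * L ≤ C * L ^ 2 := by nlinarith

lemma aux_i {C L k R : ℝ} (h1 : k * L ≤ C * L ^ 2) (h2 : 4 * C * L ^ 2 ≤ R) (hR : 0 ≤ R) : R / 2 ≤ R + -(k * L) := by nlinarith

lemma aux_j {k P z : ℝ} (hk : 0 ≤ k) (h : P ≤ z) (hz : 1 ≤ z) : 1 + k * P ≤ (1 + k) * z := by
  nlinarith [mul_le_mul_of_nonneg_left h hk]

lemma aux_k {C L R rk : ℝ} (h5 : 88 * (C + 1) * C * L ^ 3 ≤ R) (h6 : rk ≤ (22 * (C + 1) * L ^ 2) * (C * L)) :
    rk ≤ R / 4 := by nlinarith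

lemma aux_l {z Y z' E : ℝ} (hz : z ≤ z') (hY : Y ≤ z') (hE : z' ≤ E) (h2 : 2 ≤ E) : z + Y ≤ E * E := by
  nlinarith

lemma aux_m {E : ℝ} (hE : 4 ≤ E) : E + 3 ≤ E * E := by nlinarith

lemma aux_n {X e E : ℝ} (h3 : E + 3 ≤ E * E) (h4 : 0 ≤ X * e) : X * (e * E) + 3 * (X * e) ≤ X * (e * (E * E)) := by
  nlinarith [mul_le_mul_of_nonneg_left h3 h4]

/-- **Upper bound for tuples of primes.** -/
theorem tuple_bound (C ε : ℝ) (hC : 0 < C) (hε : 0 < ε) : ∀ᶠ X : ℕ in atTop, ∀ D : Finset ℕ,
    (∀ d ∈ D, (d : ℝ) ≤ Real.log X) → (D.card : ℝ) ≤ C * Real.log (Real.log X) →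
    (((Ioc 0 X).filter (fun n => ∀ d ∈ D, d ≤ n ∧ (n - d).Prime)).card : ℝ)
      ≤ X * Real.exp (-(D.card * Real.log (Real.log X)) + ε * Real.log (Real.log X) ^ 2) := by
  obtain ⟨N₀, hN₀⟩ := sum_inv_interval
  have hL : Tendsto (fun X : ℕ => Real.log (Real.log X)) atTop atTop :=
    Real.tendsto_log_atTop.comp (Real.tendsto_log_atTop.comp tendsto_natCast_atTop_atTop)
  have hlog : Tendsto (fun X : ℕ => Real.log X) atTop atTop :=
    Real.tendsto_log_atTop.comp tendsto_natCast_atTop_atTop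
  have e1 := hL.eventually (ev_log_le C (Real.log (176 * (C + 1)) + 1) (ε / 2) (by positivity))
  have e2 := hL.eventually (ev_poly_exp (88 * (C + 1) * C) 3)
  have e3 := hL.eventually (ev_poly_exp (4 * C) 2)
  have e4 := hL.eventually (ev_poly_exp (1000 * (C + 1)) 3)
  have e5 := hL.eventually (eventually_ge_atTop (10 : ℝ))
  have e6 := hlog.eventually (eventually_ge_atTop ((N₀ : ℝ) + 1000))
  have e7 : ∀ᶠ X : ℕ in atTop, (4 : ℝ) ≤ Real.exp (ε / 2 * Real.log (Real.log X) ^ 2) := by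
    have h1 : Tendsto (fun X : ℕ => ε / 2 * Real.log (Real.log X) ^ 2) atTop atTop :=
      ((tendsto_pow_atTop two_ne_zero).comp hL).const_mul_atTop (by positivity)
    exact (Real.tendsto_exp_atTop.comp h1).eventually (eventually_ge_atTop 4)
  filter_upwards [e1, e2, e3, e4, e5, e6, e7, eventually_ge_atTop 3] with X e1 e2 e3 e4 e5 e6 e7 e8
  intro D hD hDc
  set L := Real.log (Real.log X) with hLdef
  set k := D.card with hk
  have hX3 : (3 : ℝ) ≤ X := by exact_mod_cast e8
  have hXpos : (0 : ℝ) < X := by linarith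
  have hlX : 0 < Real.log X := by linarith [Nat.cast_nonneg (α := ℝ) N₀]
  have hexpL : Real.exp L = Real.log X := Real.exp_log hlX
  have hexpX : Real.exp (Real.log X) = X := Real.exp_log hXpos
  set r := 2 * ⌈10 * (C + 1) * L ^ 2⌉₊ with hr
  have hreven : Even r := even_two_mul _
  have hrlow : 20 * (C + 1) * L ^ 2 ≤ r := by
    have := Nat.le_ceil (10 * (C + 1) * L ^ 2)
    rw [hr]; push_cast; linarith
  have hrup : (r : ℝ) ≤ 22 * (C + 1) * L ^ 2 := by
    have h1 := Nat.ceil_lt_add_one (a := 10 * (C + 1) * L ^ 2) (by positivity)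
    have h2 : (2 : ℝ) ≤ 2 * (C + 1) * L ^ 2 := aux_a hC e5
    rw [hr]; push_cast; linarith
  have hrpos : (0 : ℝ) < r := lt_of_lt_of_le (by positivity) hrlow
  set z' := Real.exp (Real.log X / (4 * r)) with hz'
  set z := ⌊z'⌋₊ with hz
  set Y := ⌊Real.log X⌋₊ with hY
  have hYlog : (Y : ℝ) ≤ Real.log X := Nat.floor_le hlX.le
  have hYN : N₀ + 999 ≤ Y := by
    rw [hY]; apply Nat.le_floor; push_cast; linarith
  have hlogr : Real.log X / (8 * r) ≥ L ^ 1 * 5 := by
    have h1 : 1000 * (C + 1) * L ^ 3 ≤ Real.log X := by rw [← hexpL]; exact e4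
    rw [ge_iff_le, le_div_iff₀ (by positivity)]
    exact aux_c e5 h1 hC hrup
  have hz'1 : 1 ≤ z' := by
    rw [hz']; apply Real.one_le_exp; positivity
  have hz'big : 2 * (Real.log X) ≤ z' := by
    rw [hz']
    have h1 : Real.log X / (4 * r) ≥ 10 * L := by
      have : Real.log X / (4 * r) = 2 * (Real.log X / (8 * r)) := by field_simp; ring
      rw [this]; linarith [pow_one L]
    have h2 : Real.exp (10 * L) ≤ Real.exp (Real.log X / (4 * r)) := Real.exp_le_exp.2 h1
    have h3 : Real.exp (10 * L) = Real.exp L * Real.exp (9 * L) := by rw [← Real.exp_add]; ring_nf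
    have h4 : 2 ≤ Real.exp (9 * L) := by
      have := Real.add_one_le_exp (9 * L); linarith
    have h5 : Real.exp L * 2 ≤ Real.exp L * Real.exp (9 * L) :=
      mul_le_mul_of_nonneg_left h4 (Real.exp_pos L).le
    rw [hexpL] at h5 h3
    linarith
  have hzlow : z' / 2 ≤ z := by
    have h1 := Nat.lt_floor_add_one z'
    have h2 : 2 ≤ z' := by linarith
    rw [← hz] at h1; linarith
  have hzup : (z : ℝ) ≤ z' := Nat.floor_le (by positivity)
  have hYz : Y ≤ z := by
    have : (Y : ℝ) ≤ z := by linarith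
    exact_mod_cast this
  set P := (Finset.Ioc Y z).filter Nat.Prime with hP
  set S1 := ∑ p ∈ P, (1 : ℝ) / p with hS1
  have hS := hN₀ Y z (by omega) hYz
  rw [← hP, ← hS1] at hS
  have hY3 : (999 : ℝ) ≤ Y := by
    have : 999 ≤ Y := by omega
    exact_mod_cast this
  -- bounds for log log
  have hll1 : Real.log (Real.log Y) ≤ Real.log L := by
    apply Real.log_le_log
    · exact Real.log_pos (by linarith)
    · rw [hLdef]; exact Real.log_le_log (by linarith) hYlog
  have hll2 : 1 ≤ Real.log (Real.log Y) := by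
    have h1 : Real.exp (Real.exp 1) ≤ 999 := by
      have h2 : Real.exp 1 < 2.7182818286 := Real.exp_one_lt_d9
      have h3 : Real.exp (Real.exp 1) ≤ Real.exp 3 := Real.exp_le_exp.2 (by linarith)
      have h4 : Real.exp 3 = Real.exp 1 ^ 3 := by rw [← Real.exp_nat_mul]; norm_num
      have h5 : Real.exp 1 ^ 3 ≤ 2.7182818286 ^ 3 := pow_le_pow_left₀ (Real.exp_pos 1).le h2.le 3
      norm_num at h5 ⊢
      linarith
    rw [Real.le_log_iff_exp_le (Real.log_pos (by linarith)), Real.le_log_iff_exp_le (by linarith)]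
    linarith
  have hlz : Real.log z ≥ Real.log X / (8 * r) := by
    have h1 : Real.log (z' / 2) ≤ Real.log z := Real.log_le_log (by positivity) hzlow
    have h2 : Real.log (z' / 2) = Real.log X / (4 * r) - Real.log 2 := by
      rw [Real.log_div (by positivity) (by norm_num), hz', Real.log_exp]
    have h3 : Real.log 2 ≤ 1 := by have := Real.log_two_lt_d9; linarith
    have h4 : Real.log X / (4 * r) = Real.log X / (8 * r) + Real.log X / (8 * r) := by
      field_simp; ring
    have h5 : 1 ≤ Real.log X / (8 * r) := by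
      have := hlogr; rw [pow_one] at this; linarith
    linarith
  have hllz : Real.log (Real.log z) ≥ L - Real.log (8 * r) := by
    have h1 : Real.log (Real.log X / (8 * r)) ≤ Real.log (Real.log z) :=
      Real.log_le_log (by positivity) hlz
    rw [Real.log_div hlX.ne' (by positivity)] at h1
    exact h1
  have hllz' : Real.log (Real.log z) ≤ L := by
    have hz1 : (1 : ℝ) < z := by
      have : (Y : ℝ) ≤ z := by exact_mod_cast hYz
      linarith
    apply Real.log_le_log (Real.log_pos hz1)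
    have h1 : Real.log z ≤ Real.log z' := Real.log_le_log (by linarith) hzup
    rw [hz', Real.log_exp] at h1
    refine h1.trans ?_
    apply div_le_self hlX.le
    have : 20 * (C + 1) * L ^ 2 ≥ 1 := aux_b hC e5
    linarith
  rw [abs_le] at hS
  have hS1low : L - Real.log (8 * r) - Real.log L - 1 ≤ S1 := by linarith [hS.1]
  have hS1up : S1 ≤ L := by linarith [hS.2]
  have hS1nn : 0 ≤ S1 := Finset.sum_nonneg fun p _ => by positivity
  have hk0 : (0 : ℝ) ≤ k := Nat.cast_nonneg k
  have hkC : (k : ℝ) ≤ C * L := hDc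
  have hksum : ∑ p ∈ P, (k : ℝ) / p = k * S1 := by
    rw [hS1, Finset.mul_sum]; exact Finset.sum_congr rfl fun p _ => by ring
  -- the sieve
  have hbrun := brun X k r hreven P (fun p hp => (Finset.mem_filter.1 hp).2) (fun _ => D) (by
    intro p hp
    refine ⟨fun d hd => ?_, rfl⟩
    rw [Finset.mem_range]
    have h1 : Y < p := (Finset.mem_Ioc.1 (Finset.mem_filter.1 hp).1).1
    have h2 : d ≤ Y := Nat.le_floor (hD d hd)
    omega)
  have hincl : (Ioc 0 X).filter (fun n => ∀ d ∈ D, d ≤ n ∧ (n - d).Prime)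
      ⊆ (Ioc 0 (z + Y)) ∪ (Ioc 0 X).filter (fun n => ∀ p ∈ P, n % p ∉ D) := by
    intro n hn
    rw [Finset.mem_filter] at hn
    rw [Finset.mem_union]
    by_cases hnz : n ≤ z + Y
    · exact Or.inl (Finset.mem_Ioc.2 ⟨(Finset.mem_Ioc.1 hn.1).1, hnz⟩)
    · right
      rw [Finset.mem_filter]
      refine ⟨hn.1, fun p hp hpD => ?_⟩
      have h1 := hn.2 _ hpD
      have hpp : p.Prime := (Finset.mem_filter.1 hp).2
      have hpz : p ≤ z := (Finset.mem_Ioc.1 (Finset.mem_filter.1 hp).1).2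
      have h2 : n % p ≤ Y := Nat.le_floor (hD _ hpD)
      have h3 : p ∣ n - n % p := Nat.dvd_sub_mod n
      have h4 : p = n - n % p := (Nat.prime_dvd_prime_iff_eq hpp h1.2).1 h3
      omega
  have hcard : (((Ioc 0 X).filter (fun n => ∀ d ∈ D, d ≤ n ∧ (n - d).Prime)).card : ℝ)
      ≤ (z + Y : ℝ) + (((Ioc 0 X).filter (fun n => ∀ p ∈ P, n % p ∉ D)).card : ℝ) := by
    have h1 := Finset.card_le_card hincl
    have h2 := Finset.card_union_le (Ioc 0 (z + Y))
      ((Ioc 0 X).filter (fun n => ∀ p ∈ P, n % p ∉ D))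
    rw [Nat.card_Ioc] at h2
    have h3 : ((Ioc 0 X).filter (fun n => ∀ d ∈ D, d ≤ n ∧ (n - d).Prime)).card
        ≤ (z + Y) + ((Ioc 0 X).filter (fun n => ∀ p ∈ P, n % p ∉ D)).card := by omega
    exact_mod_cast h3
  -- term 1
  have t1 : ∏ p ∈ P, (1 - (k : ℝ) / p) ≤ Real.exp (-(k * L) + ε / 2 * L ^ 2) := by
    have h1 : ∏ p ∈ P, (1 - (k : ℝ) / p) ≤ ∏ p ∈ P, Real.exp (-((k : ℝ) / p)) := by
      apply Finset.prod_le_prod
      · intro p hp
        have h1 : Y < p := (Finset.mem_Ioc.1 (Finset.mem_filter.1 hp).1).1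
        have h2 : (0 : ℝ) < p := by exact_mod_cast (show 0 < p by omega)
        have h3 : k ≤ p := by
          have : D ⊆ Finset.range p := by
            intro d hd
            rw [Finset.mem_range]
            have : d ≤ Y := Nat.le_floor (hD d hd)
            omega
          have := Finset.card_le_card this
          rwa [Finset.card_range] at this
        have h4 : (k : ℝ) / p ≤ 1 := by
          rw [div_le_one h2]; exact_mod_cast h3
        linarith
      · intro p _
        have := Real.add_one_le_exp (-((k : ℝ) / p))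
        linarith
    refine h1.trans ?_
    rw [← Real.exp_sum, Real.exp_le_exp, Finset.sum_neg_distrib, hksum]
    have h2 : k * (Real.log (8 * r) + Real.log L + 1) ≤ ε / 2 * L ^ 2 := by
      have hlogL : 0 ≤ Real.log L := Real.log_nonneg (by linarith)
      have h3 : Real.log (8 * r) ≤ Real.log (176 * (C + 1)) + 2 * Real.log L := by
        have h4 : Real.log (8 * r) ≤ Real.log (176 * (C + 1) * L ^ 2) := by
          apply Real.log_le_log (by positivity)
          linarith
        have h6 : Real.log (176 * (C + 1) * L ^ 2) = Real.log (176 * (C + 1)) + 2 * Real.log L := by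
          rw [Real.log_mul (by positivity) (by positivity), Real.log_pow]; push_cast; ring
        rw [h6] at h4
        exact h4
      have h5 : Real.log (8 * r) + Real.log L + 1
          ≤ (Real.log (176 * (C + 1)) + 1) + 3 * Real.log L := by linarith
      have h176 : 0 ≤ Real.log (176 * (C + 1)) := Real.log_nonneg (by linarith)
      calc (k : ℝ) * (Real.log (8 * r) + Real.log L + 1)
          ≤ k * ((Real.log (176 * (C + 1)) + 1) + 3 * Real.log L) :=
            mul_le_mul_of_nonneg_left h5 hk0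
        _ ≤ (C * L) * ((Real.log (176 * (C + 1)) + 1) + 3 * Real.log L) :=
            mul_le_mul_of_nonneg_right hkC (by linarith)
        _ ≤ _ := e1
    exact aux_d hk0 (by linarith) h2
  -- term 2
  have t2 : (∑ p ∈ P, (k : ℝ) / p) ^ (r + 1) / ((r + 1).factorial : ℝ) ≤ Real.exp (-(k * L)) := by
    rw [hksum]
    set n := r + 1 with hn
    have hnr : (n : ℝ) = r + 1 := by rw [hn]; push_cast; ring
    have hnpos : (0 : ℝ) < n := by rw [hnr]; linarith
    have hs : k * S1 ≤ C * L ^ 2 := by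
      have : k * S1 ≤ (C * L) * L := mul_le_mul hkC hS1up hS1nn (by positivity)
      rw [mul_assoc, ← sq] at this
      exact this
    have hsn : (k * S1) / n ≤ Real.exp (-2) := by
      rw [div_le_iff₀ hnpos]
      have h4 : 8 * (C * L ^ 2) ≤ n := aux_e hC hrlow hnr
      exact aux_f (by linarith) hnpos aux_g
    have hpf := Real.pow_div_factorial_le_exp (n : ℝ) hnpos.le n
    have hnf : (0 : ℝ) < (n.factorial : ℝ) := by exact_mod_cast Nat.factorial_pos n
    calc (k * S1) ^ n / (n.factorial : ℝ)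
        = ((k * S1) / n) ^ n * ((n : ℝ) ^ n / (n.factorial : ℝ)) := by
          rw [div_pow]; field_simp
      _ ≤ (Real.exp (-2)) ^ n * Real.exp n := by
          apply mul_le_mul _ hpf (by positivity) (by positivity)
          exact pow_le_pow_left₀ (by positivity) hsn n
      _ = Real.exp (-(n : ℝ)) := by
          rw [← Real.exp_nat_mul, ← Real.exp_add]; ring_nf
      _ ≤ Real.exp (-(k * L)) := by
          rw [Real.exp_le_exp]
          have h1 : k * L ≤ C * L ^ 2 := aux_h e5 hkC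
          have h2 : 8 * (C * L ^ 2) ≤ n := aux_e hC hrlow hnr
          have h3 : 0 ≤ C * L ^ 2 := by positivity
          linarith
  -- term 3
  have hhalf : Real.exp (Real.log X / 2) ≤ X * Real.exp (-(k * L)) := by
    nth_rewrite 2 [← hexpX]
    rw [← Real.exp_add, Real.exp_le_exp]
    have h1 : k * L ≤ C * L ^ 2 := aux_h e5 hkC
    have h2 : 4 * C * L ^ 2 ≤ Real.log X := by rw [← hexpL]; exact e3
    exact aux_i h1 h2 hlX.le
  have hz4 : z' ≤ Real.exp (Real.log X / 4) := by
    rw [hz', Real.exp_le_exp]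
    apply div_le_div_of_nonneg_left hlX.le (by norm_num)
    have : 20 * (C + 1) * L ^ 2 ≥ 1 := aux_b hC e5
    linarith
  have t3 : (1 + (k : ℝ) * P.card) ^ r ≤ Real.exp (Real.log X / 2) := by
    have h1 : (P.card : ℝ) ≤ z' := by
      have h2 : P.card ≤ z := by
        calc P.card ≤ (Finset.Ioc Y z).card := Finset.card_filter_le _ _
          _ = z - Y := by rw [Nat.card_Ioc]
          _ ≤ z := Nat.sub_le _ _
      have : (P.card : ℝ) ≤ z := by exact_mod_cast h2
      linarith
    have h3 : 1 + (k : ℝ) * P.card ≤ (1 + k) * z' := by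
      exact aux_j hk0 h1 hz'1
    calc (1 + (k : ℝ) * P.card) ^ r ≤ ((1 + k) * z') ^ r :=
          pow_le_pow_left₀ (by positivity) h3 r
      _ = (1 + (k : ℝ)) ^ r * z' ^ r := by rw [mul_pow]
      _ ≤ Real.exp (Real.log X / 4) * Real.exp (Real.log X / 4) := by
          apply mul_le_mul
          · have h4 : (1 : ℝ) + k ≤ Real.exp k := by
              have := Real.add_one_le_exp (k : ℝ); linarith
            calc (1 + (k : ℝ)) ^ r ≤ (Real.exp k) ^ r := pow_le_pow_left₀ (by positivity) h4 r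
              _ = Real.exp (r * k) := by rw [← Real.exp_nat_mul]
              _ ≤ _ := by
                rw [Real.exp_le_exp]
                have h5 : 88 * (C + 1) * C * L ^ 3 ≤ Real.log X := by rw [← hexpL]; exact e2
                have h6 : (r : ℝ) * k ≤ (22 * (C + 1) * L ^ 2) * (C * L) :=
                  mul_le_mul hrup hkC hk0 (by positivity)
                exact aux_k h5 h6
          · rw [hz', ← Real.exp_nat_mul]
            rw [Real.exp_le_exp]
            apply le_of_eq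
            field_simp
          · positivity
          · positivity
      _ = _ := by rw [← Real.exp_add]; ring_nf
  have t4 : (z + Y : ℝ) ≤ Real.exp (Real.log X / 2) := by
    have h1 : (Y : ℝ) ≤ z' := by linarith
    have h2 : 2 ≤ Real.exp (Real.log X / 4) := by
      have := Real.add_one_le_exp (Real.log X / 4)
      linarith [Nat.cast_nonneg (α := ℝ) N₀]
    have h3 : Real.exp (Real.log X / 2) = Real.exp (Real.log X / 4) * Real.exp (Real.log X / 4) := by
      rw [← Real.exp_add]; ring_nf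
    rw [h3]
    exact aux_l hzup h1 hz4 h2
  -- conclusion
  have hfin : X * Real.exp (-(k * L) + ε / 2 * L ^ 2) + 3 * (X * Real.exp (-(k * L)))
      ≤ X * Real.exp (-(k * L) + ε * L ^ 2) := by
    have h1 : Real.exp (-(k * L) + ε / 2 * L ^ 2)
        = Real.exp (-(k * L)) * Real.exp (ε / 2 * L ^ 2) := Real.exp_add _ _
    have h2 : Real.exp (-(k * L) + ε * L ^ 2)
        = Real.exp (-(k * L)) * (Real.exp (ε / 2 * L ^ 2) * Real.exp (ε / 2 * L ^ 2)) := by
      rw [← Real.exp_add, ← Real.exp_add]; ring_nf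
    rw [h1, h2]
    set E := Real.exp (ε / 2 * L ^ 2) with hE
    have h3 : E + 3 ≤ E * E := aux_m e7
    have h4 : 0 ≤ X * Real.exp (-(k * L)) := by positivity
    exact aux_n h3 h4
  have hX0 : (0 : ℝ) ≤ X := hXpos.le
  calc (((Ioc 0 X).filter (fun n => ∀ d ∈ D, d ≤ n ∧ (n - d).Prime)).card : ℝ)
      ≤ (z + Y : ℝ) + (((Ioc 0 X).filter (fun n => ∀ p ∈ P, n % p ∉ D)).card : ℝ) := hcard
    _ ≤ X * Real.exp (-(k * L)) + (X * Real.exp (-(k * L) + ε / 2 * L ^ 2)
          + X * Real.exp (-(k * L)) + X * Real.exp (-(k * L))) := by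
        apply add_le_add (t4.trans hhalf)
        refine hbrun.trans ?_
        apply add_le_add
        · apply add_le_add
          · exact mul_le_mul_of_nonneg_left t1 hX0
          · exact mul_le_mul_of_nonneg_left t2 hX0
        · exact t3.trans hhalf
    _ = X * Real.exp (-(k * L) + ε / 2 * L ^ 2) + 3 * (X * Real.exp (-(k * L))) := by ring
    _ ≤ _ := hfin

end Pool.Agent.H560.CL
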