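import Mathlib
import Pool.Agent.H560.CL.Scale
import Pool.Agent.H560.CL.Sieve

/-!
# Few `n` have few exceptions
-/

set_option autoImplicit false

namespace Pool.Agent.H560.CL

open Finset Filter Topology

lemma nth_bound (n M i : ℕ) (h : i < (DD M n).card) :
    Nat.nth (fun d => d ≤ n ∧ (n - d).Prime) i ≤ M ∧
    (Nat.nth (fun d => d ≤ n ∧ (n - d).Prime) i ≤ n ∧
      (n - Nat.nth (fun d => d ≤ n ∧ (n - d).Prime) i).Prime) := by
  classical
  have hcount : (DD M n).card = Nat.count (fun d => d ≤ n ∧ (n - d).Prime) (M + 1) := by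
    rw [Nat.count_eq_card_filter_range]; rfl
  rw [hcount] at h
  refine ⟨by have := Nat.nth_lt_of_lt_count h; omega, ?_⟩
  exact Nat.nth_mem i fun hf => h.trans_le (Nat.count_le_card hf _)

lemma nth_inj (n k : ℕ) (h : ∃ M, k ≤ (DD M n).card) :
    Function.Injective (fun i : Fin k => Nat.nth (fun d => d ≤ n ∧ (n - d).Prime) i) := by
  classical
  obtain ⟨M, hM⟩ := h
  have hcount : (DD M n).card = Nat.count (fun d => d ≤ n ∧ (n - d).Prime) (M + 1) := by
    rw [Nat.count_eq_card_filter_range]; rfl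
  rw [hcount] at hM
  have hf : {d | d ≤ n ∧ (n - d).Prime}.Finite :=
    (Set.finite_Iic n).subset fun d hd => hd.1
  intro i j hij
  have := Nat.nth_injOn hf (show (i : ℕ) ∈ Set.Iio _ from i.2.trans_le (hM.trans (Nat.count_le_card hf _)))
    (show (j : ℕ) ∈ Set.Iio _ from j.2.trans_le (hM.trans (Nat.count_le_card hf _))) hij
  exact Fin.ext this

lemma prod_bound (k : ℕ) (a κ : ℝ) (ha : 0 ≤ a) (hκ : 0 < κ) :
    ((Fintype.piFinset (fun i : Fin k => range (⌊Real.exp (a + (i : ℕ) / κ)⌋₊ + 1))).card : ℝ)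
      ≤ Real.exp (k * Real.log 2 + k * a + k * ((k : ℝ) - 1) / (2 * κ)) := by
  rw [Fintype.card_piFinset]
  push_cast
  have h1 : ∏ i : Fin k, (((range (⌊Real.exp (a + (i : ℕ) / κ)⌋₊ + 1)).card : ℕ) : ℝ)
      ≤ ∏ i : Fin k, Real.exp (Real.log 2 + a + (i : ℕ) / κ) := by
    apply Finset.prod_le_prod
    · intro i _; exact Nat.cast_nonneg _
    · intro i _
      rw [card_range]
      push_cast
      have h2 : (⌊Real.exp (a + (i : ℕ) / κ)⌋₊ : ℝ) ≤ Real.exp (a + (i : ℕ) / κ) :=
        Nat.floor_le (Real.exp_pos _).le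
      have h3 : 1 ≤ Real.exp (a + (i : ℕ) / κ) := Real.one_le_exp (by positivity)
      have h4 : Real.exp (Real.log 2 + a + (i : ℕ) / κ) = 2 * Real.exp (a + (i : ℕ) / κ) := by
        rw [add_assoc, Real.exp_add, Real.exp_log (by norm_num)]
      rw [h4]; linarith
  refine h1.trans ?_
  rw [← Real.exp_sum, Real.exp_le_exp]
  apply le_of_eq
  rw [Fin.sum_univ_eq_sum_range (fun i : ℕ => Real.log 2 + a + (i : ℝ) / κ) k]
  clear h1
  induction k with
  | zero => simp
  | succ k ih =>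
    rw [sum_range_succ, ih]
    push_cast
    field_simp
    ring

lemma sqrt_card (X : ℕ) : (((Icc 1 X).filter (fun n => ¬ X < n ^ 2)).card : ℝ) ≤ Real.exp (Real.log X / 2) := by
  have h1 : (Icc 1 X).filter (fun n => ¬ X < n ^ 2) ⊆ Icc 1 (Nat.sqrt X) := by
    intro n hn
    rw [mem_filter, mem_Icc, not_lt] at hn
    rw [mem_Icc]
    exact ⟨hn.1.1, Nat.le_sqrt'.2 hn.2⟩
  have h2 := card_le_card h1
  rw [Nat.card_Icc, Nat.add_sub_cancel] at h2
  rcases Nat.eq_zero_or_pos X with h | h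
  · subst h; simp
  have hX : (0 : ℝ) < X := by exact_mod_cast h
  have h3 : (Nat.sqrt X : ℝ) ≤ Real.exp (Real.log X / 2) := by
    have h4 : Real.exp (Real.log X / 2) = Real.sqrt X := by
      rw [Real.sqrt_eq_rpow, Real.rpow_def_of_pos hX]; congr 1; ring
    rw [h4]
    exact Real.nat_sqrt_le_real_sqrt
  exact le_trans (by exact_mod_cast h2) h3

lemma aux_final {κ τ L c η J k l2 : ℝ} (hκ : 0 < κ) (hτ : 0 < τ) (hL : 1 ≤ L) (hJ : 5 ≤ J)
    (h2 : 0 ≤ l2) (hJ2 : 5 * κ * τ ^ 2 ≤ 6 * η * J) (hc : κ * τ ^ 2 / 2 = c + 6 * η)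
    (hk1 : k - 1 ≤ κ * τ * L) (hk0 : 0 ≤ k) (hk2 : κ * (τ * (J - 1) / J) * L ≤ k)
    (hl : (κ * τ * L + 1) * l2 ≤ η * L ^ 2) :
    (k * l2 + k * (((1 - τ) + 2 * τ / J) * L) + k * (k - 1) / (2 * κ)) + (-(k * L) + η * L ^ 2)
      ≤ -((c + η) * L ^ 2) := by
  have hJ0 : 0 < J := by linarith
  have h3 : k * (k - 1) / (2 * κ) ≤ k * (τ * L / 2) := by
    rw [div_le_iff₀ (by positivity)]
    have := mul_le_mul_of_nonneg_left hk1 hk0
    linarith
  have h4 : k * l2 ≤ η * L ^ 2 := by
    have := mul_le_mul_of_nonneg_right (show k ≤ κ * τ * L + 1 by linarith) h2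
    linarith
  have h5 : κ * (τ * (J - 1) / J) * L * (τ * L * (1 / 2 - 2 / J)) ≤ k * (τ * L * (1 / 2 - 2 / J)) := by
    apply mul_le_mul_of_nonneg_right hk2
    have : 2 / J ≤ 1 / 2 := by rw [div_le_div_iff₀ hJ0 (by norm_num)]; linarith
    have : 0 ≤ 1 / 2 - 2 / J := by linarith
    positivity
  have h6 : κ * (τ * (J - 1) / J) * L * (τ * L * (1 / 2 - 2 / J))
      = κ * τ ^ 2 * L ^ 2 * ((1 - 1 / J) * (1 / 2 - 2 / J)) := by
    field_simp
  have h7 : 1 / 2 - 5 / (2 * J) ≤ (1 - 1 / J) * (1 / 2 - 2 / J) := by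
    have : (1 - 1 / J) * (1 / 2 - 2 / J) = 1 / 2 - 5 / (2 * J) + 2 * (1 / J) ^ 2 := by
      field_simp; ring
    rw [this]; have := sq_nonneg (1 / J); linarith
  have h8 : κ * τ ^ 2 * L ^ 2 * (1 / 2 - 5 / (2 * J)) ≤ κ * τ ^ 2 * L ^ 2 * ((1 - 1 / J) * (1 / 2 - 2 / J)) :=
    mul_le_mul_of_nonneg_left h7 (by positivity)
  have h9 : κ * τ ^ 2 * (5 / (2 * J)) ≤ 3 * η := by
    have : κ * τ ^ 2 * (5 / (2 * J)) = (5 * κ * τ ^ 2) / (2 * J) := by ring
    rw [this, div_le_iff₀ (by positivity)]; linarith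
  have h10 : κ * τ ^ 2 * L ^ 2 * (1 / 2 - 5 / (2 * J)) = (κ * τ ^ 2 / 2) * L ^ 2 - (κ * τ ^ 2 * (5 / (2 * J))) * L ^ 2 := by
    ring
  have h11 : (κ * τ ^ 2 * (5 / (2 * J))) * L ^ 2 ≤ 3 * η * L ^ 2 :=
    mul_le_mul_of_nonneg_right h9 (sq_nonneg L)
  have h12 : (c + 3 * η) * L ^ 2 ≤ k * (τ * L * (1 / 2 - 2 / J)) := by
    have : (c + 3 * η) * L ^ 2 = (c + 6 * η) * L ^ 2 - 3 * η * L ^ 2 := by ring
    rw [this, ← hc]
    linarith
  have h13 : k * (((1 - τ) + 2 * τ / J) * L) = k * L - k * (τ * L * (1 / 2 - 2 / J)) - k * (τ * L / 2) := by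
    ring
  rw [h13]
  have h14 : (c + 3 * η) * L ^ 2 = (c + η) * L ^ 2 + 2 * (η * L ^ 2) := by ring
  linarith

/-- **Few exceptions.** -/
theorem few (θ c : ℝ) (hθ : 0 ≤ θ) (hθ1 : θ < 1) (hc : c < kappa * (1 - θ) ^ 2 / 2) :
    ∀ᶠ X : ℕ in atTop,
      (((Icc 1 X).filter (fun n => (exceptions (Real.log X) n : ℝ) ≤ Real.log X ^ θ)).card : ℝ)
        ≤ X * Real.exp (-(c * Real.log (Real.log X) ^ 2)) := by
  classical
  have hκ := kappa_pos
  set κ := kappa with hκdef
  set τ := 1 - θ with hτ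
  have hτ0 : 0 < τ := by rw [hτ]; linarith
  set η := (κ * τ ^ 2 / 2 - c) / 6 with hη
  have hη0 : 0 < η := by rw [hη]; linarith
  have hcη : κ * τ ^ 2 / 2 = c + 6 * η := by rw [hη]; ring
  obtain ⟨J, hJ⟩ := exists_nat_ge (max 5 (5 * κ * τ ^ 2 / (6 * η)))
  have hJ5 : (5 : ℝ) ≤ J := (le_max_left _ _).trans hJ
  have hJ6 : 5 * κ * τ ^ 2 ≤ 6 * η * J := by
    have := (le_max_right _ _).trans hJ
    rw [div_le_iff₀ (by positivity)] at this
    linarith
  have hJ0 : (0 : ℝ) < J := by linarith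
  have hlog : Tendsto (fun X : ℕ => Real.log X) atTop atTop :=
    Real.tendsto_log_atTop.comp tendsto_natCast_atTop_atTop
  have hL : Tendsto (fun X : ℕ => Real.log (Real.log X)) atTop atTop :=
    Real.tendsto_log_atTop.comp hlog
  -- the scales
  have hsc : ∀ᶠ X : ℕ in atTop, ∀ j ∈ Icc 1 J, ∀ n : ℕ, X < n ^ 2 →
      (exceptions (Real.log X) n : ℝ) ≤ (Real.log X) ^ θ →
      (τ * ((j : ℝ) - 1) / J) * κ * Real.log (Real.log X)
        < ((DD ⌊(Real.log X) ^ (θ + τ * j / J)⌋₊ n).card : ℝ) := by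
    rw [Finset.eventually_all]
    intro j hj
    rw [mem_Icc] at hj
    have hj1 : (1 : ℝ) ≤ j := by exact_mod_cast hj.1
    have hjJ : (j : ℝ) ≤ J := by exact_mod_cast hj.2
    apply scale θ (θ + τ * j / J) (τ * ((j : ℝ) - 1) / J) hθ
    · have : 0 < τ * j / J := by positivity
      linarith
    · have : τ * j / J ≤ τ := by
        rw [div_le_iff₀ hJ0]; exact mul_le_mul_of_nonneg_left hjJ hτ0.le
      linarith
    · have : 0 ≤ (j : ℝ) - 1 := by linarith
      positivity
    · have : τ * ((j : ℝ) - 1) / J < τ * j / J := by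
        apply div_lt_div_of_pos_right _ hJ0
        apply mul_lt_mul_of_pos_left _ hτ0
        linarith
      linarith
  have hC : 0 < κ * τ + 1 := by positivity
  have e2 : ∀ᶠ X : ℕ in atTop, (κ * τ * Real.log (Real.log X) + 1) * Real.log 2 ≤ η * Real.log (Real.log X) ^ 2 := by
    have h1 : ∀ᶠ L : ℝ in atTop, (κ * τ * L + 1) * Real.log 2 ≤ η * L ^ 2 := by
      filter_upwards [eventually_ge_atTop (max 1 ((κ * τ + 1) / η))] with L hL
      have h2 : 1 ≤ L := (le_max_left _ _).trans hL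
      have h3 : κ * τ + 1 ≤ η * L := by
        have := (le_max_right _ _).trans hL
        rw [div_le_iff₀ hη0] at this; linarith
      have h4 : Real.log 2 ≤ 1 := by have := Real.log_two_lt_d9; linarith
      have h5 : 0 ≤ κ * τ * L + 1 := by positivity
      calc (κ * τ * L + 1) * Real.log 2 ≤ (κ * τ * L + 1) * 1 := mul_le_mul_of_nonneg_left h4 h5
        _ ≤ (κ * τ + 1) * L := by linarith
        _ ≤ (η * L) * L := mul_le_mul_of_nonneg_right h3 (by linarith)
        _ = η * L ^ 2 := by ring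
    exact hL.eventually h1
  have e3 : ∀ᶠ X : ℕ in atTop, 2 ≤ Real.exp (η * Real.log (Real.log X) ^ 2) := by
    have h1 : Tendsto (fun X : ℕ => η * Real.log (Real.log X) ^ 2) atTop atTop :=
      ((tendsto_pow_atTop two_ne_zero).comp hL).const_mul_atTop hη0
    exact (Real.tendsto_exp_atTop.comp h1).eventually (eventually_ge_atTop 2)
  filter_upwards [hsc, tuple_bound (κ * τ + 1) η hC hη0, e2, e3,
    hL.eventually (ev_poly_exp (2 * |c| + 2) 2), hL.eventually (eventually_ge_atTop 1),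
    hlog.eventually (eventually_ge_atTop 1), eventually_ge_atTop 3] with X hsc htup e2 e3 e4 hL1 hlX1 hX3
  set L := Real.log (Real.log X) with hLdef
  have hXpos : (0 : ℝ) < X := by exact_mod_cast (by omega : 0 < X)
  have hlX0 : 0 < Real.log X := by linarith
  have hexpL : Real.exp L = Real.log X := Real.exp_log hlX0
  set k := ⌊κ * (τ * ((J : ℝ) - 1) / J) * L⌋₊ + 1 with hk
  have hs0 : 0 ≤ κ * (τ * ((J : ℝ) - 1) / J) * L := by
    have : 0 ≤ (J : ℝ) - 1 := by linarith
    positivity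
  have hk1 : (k : ℝ) - 1 ≤ κ * (τ * ((J : ℝ) - 1) / J) * L := by
    rw [hk]; push_cast
    have := Nat.floor_le hs0
    linarith
  have hk2 : κ * (τ * ((J : ℝ) - 1) / J) * L ≤ k := by
    rw [hk]; push_cast
    exact (Nat.lt_floor_add_one _).le
  have hsτ : κ * (τ * ((J : ℝ) - 1) / J) * L ≤ κ * τ * L := by
    have h1 : τ * ((J : ℝ) - 1) / J ≤ τ := by
      rw [div_le_iff₀ hJ0]
      exact mul_le_mul_of_nonneg_left (by linarith) hτ0.le
    exact mul_le_mul_of_nonneg_right (mul_le_mul_of_nonneg_left h1 hκ.le) (by linarith)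
  have hkC : (k : ℝ) ≤ (κ * τ + 1) * L := by
    have : (κ * τ + 1) * L = κ * τ * L + L := by ring
    linarith
  set A := (θ + 2 * τ / J) * L with hA
  have hA0 : 0 ≤ A := by positivity
  set F := (Fintype.piFinset (fun i : Fin k => range (⌊Real.exp (A + (i : ℕ) / κ)⌋₊ + 1))).filter
    (fun f : Fin k → ℕ => Function.Injective f ∧ ∀ i, ((f i : ℕ) : ℝ) ≤ Real.log X) with hF
  set T : (Fin k → ℕ) → Finset ℕ := fun f =>
    (Ioc 0 X).filter (fun n => ∀ d ∈ univ.image f, d ≤ n ∧ (n - d).Prime) with hT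
  have hTcard : ∀ f ∈ F, ((T f).card : ℝ) ≤ X * Real.exp (-(k * L) + η * L ^ 2) := by
    intro f hf
    rw [hF, mem_filter] at hf
    have hc : (univ.image f).card = k := by
      rw [card_image_of_injective _ hf.2.1, card_univ, Fintype.card_fin]
    have h1 := htup (univ.image f) (by
      intro d hd
      rw [mem_image] at hd
      obtain ⟨i, _, rfl⟩ := hd
      exact hf.2.2 i) (by rw [hc]; exact hkC)
    rw [hc] at h1
    exact h1
  have hsub : (Icc 1 X).filter (fun n => (exceptions (Real.log X) n : ℝ) ≤ Real.log X ^ θ)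
      ⊆ (Icc 1 X).filter (fun n => ¬ X < n ^ 2) ∪ F.biUnion T := by
    intro n hn
    rw [mem_filter] at hn
    rw [mem_union]
    by_cases hnX : X < n ^ 2
    · right
      have hkey : ∀ i : ℕ, i < k → ∃ M : ℕ, i < (DD M n).card ∧ (M : ℝ) ≤ Real.log X ∧
          (M : ℝ) ≤ Real.exp (A + (i : ℕ) / κ) := by
        intro i hi
        have hik : (i : ℝ) ≤ (k : ℝ) - 1 := by
          have : (i : ℝ) + 1 ≤ k := by exact_mod_cast hi
          linarith
        set q := ⌈(i : ℝ) * J / (κ * τ * L)⌉₊ with hq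
        have hκτL : 0 < κ * τ * L := by positivity
        have hq1 : (i : ℝ) * J / (κ * τ * L) ≤ q := Nat.le_ceil _
        have hq2 : (q : ℝ) < (i : ℝ) * J / (κ * τ * L) + 1 := Nat.ceil_lt_add_one (by positivity)
        have hq3 : q + 1 ≤ J := by
          have h1 : (i : ℝ) * J / (κ * τ * L) ≤ (J : ℝ) - 1 := by
            rw [div_le_iff₀ hκτL]
            have h2 : (i : ℝ) * J ≤ (κ * (τ * ((J : ℝ) - 1) / J) * L) * J :=
              mul_le_mul_of_nonneg_right (hik.trans hk1) hJ0.le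
            have h3 : (κ * (τ * ((J : ℝ) - 1) / J) * L) * J = (J - 1) * (κ * τ * L) := by
              field_simp
            linarith
          have hJ1 : 1 ≤ J := by
            have : (1 : ℝ) ≤ J := by linarith
            exact_mod_cast this
          have h4 : q ≤ J - 1 := by
            rw [hq]; apply Nat.ceil_le.2
            rw [Nat.cast_sub hJ1]; exact_mod_cast h1
          omega
        have h1 := hsc (q + 1) (mem_Icc.2 ⟨by omega, hq3⟩) n hnX hn.2
        push_cast at h1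
        rw [add_sub_cancel_right] at h1
        have h2 : (i : ℝ) ≤ τ * q / J * κ * L := by
          have h3 : (i : ℝ) = ((i : ℝ) * J / (κ * τ * L)) * (κ * τ * L) / J := by
            field_simp
          rw [h3]
          have h4 : τ * q / J * κ * L = q * (κ * τ * L) / J := by ring
          rw [h4]
          apply div_le_div_of_nonneg_right _ hJ0.le
          exact mul_le_mul_of_nonneg_right hq1 hκτL.le
        refine ⟨⌊(Real.log X) ^ (θ + τ * (q + 1 : ℝ) / J)⌋₊, by exact_mod_cast h2.trans_lt h1, ?_, ?_⟩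
        · have h5 : (⌊(Real.log X) ^ (θ + τ * (q + 1 : ℝ) / J)⌋₊ : ℝ) ≤ (Real.log X) ^ (θ + τ * (q + 1 : ℝ) / J) :=
            Nat.floor_le (by positivity)
          refine h5.trans ?_
          nth_rewrite 2 [← Real.rpow_one (Real.log X)]
          apply Real.rpow_le_rpow_of_exponent_le hlX1
          have h6 : τ * (q + 1 : ℝ) / J ≤ τ := by
            rw [div_le_iff₀ hJ0]
            apply mul_le_mul_of_nonneg_left _ hτ0.le
            exact_mod_cast hq3
          linarith
        · have h5 : (⌊(Real.log X) ^ (θ + τ * (q + 1 : ℝ) / J)⌋₊ : ℝ) ≤ (Real.log X) ^ (θ + τ * (q + 1 : ℝ) / J) :=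
            Nat.floor_le (by positivity)
          refine h5.trans ?_
          rw [Real.rpow_def_of_pos hlX0, Real.exp_le_exp, ← hLdef]
          have h6 : (q : ℝ) + 1 ≤ (i : ℝ) * J / (κ * τ * L) + 2 := by linarith
          have h7 : L * (τ * (q + 1 : ℝ) / J) ≤ L * (τ * ((i : ℝ) * J / (κ * τ * L) + 2) / J) := by
            apply mul_le_mul_of_nonneg_left _ (by linarith)
            apply div_le_div_of_nonneg_right _ hJ0.le
            exact mul_le_mul_of_nonneg_left h6 hτ0.le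
          have h8 : L * (τ * ((i : ℝ) * J / (κ * τ * L) + 2) / J) = 2 * τ / J * L + i / κ := by
            field_simp
            ring
          rw [hA]
          have h9 : L * (θ + τ * (q + 1 : ℝ) / J) = θ * L + L * (τ * (q + 1 : ℝ) / J) := by ring
          rw [h9]
          have h10 : (θ + 2 * τ / J) * L = θ * L + 2 * τ / J * L := by ring
          rw [h10]
          linarith
      rw [mem_biUnion]
      refine ⟨fun i : Fin k => Nat.nth (fun d => d ≤ n ∧ (n - d).Prime) i, ?_, ?_⟩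
      · rw [hF, mem_filter, Fintype.mem_piFinset]
        refine ⟨?_, ?_, ?_⟩
        · intro i
          obtain ⟨M, hM1, hM2, hM3⟩ := hkey i i.2
          have h1 := (nth_bound n M i hM1).1
          rw [mem_range]
          have h2 : M ≤ ⌊Real.exp (A + (i : ℕ) / κ)⌋₊ := Nat.le_floor hM3
          omega
        · apply nth_inj
          obtain ⟨M, hM1, _⟩ := hkey (k - 1) (by omega)
          exact ⟨M, by omega⟩
        · intro i
          obtain ⟨M, hM1, hM2, hM3⟩ := hkey i i.2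
          have h1 := (nth_bound n M i hM1).1
          have h2 : ((Nat.nth (fun d => d ≤ n ∧ (n - d).Prime) i : ℕ) : ℝ) ≤ M := by exact_mod_cast h1
          linarith
      · rw [hT, mem_filter]
        have h1 := mem_Icc.1 hn.1
        refine ⟨mem_Ioc.2 ⟨by omega, h1.2⟩, ?_⟩
        intro d hd
        rw [mem_image] at hd
        obtain ⟨i, _, rfl⟩ := hd
        obtain ⟨M, hM1, hM2, hM3⟩ := hkey i i.2
        exact (nth_bound n M i hM1).2
    · left
      rw [mem_filter]
      exact ⟨hn.1, hnX⟩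
  have hcardF : (F.card : ℝ) ≤ Real.exp (k * Real.log 2 + k * A + k * ((k : ℝ) - 1) / (2 * κ)) := by
    refine le_trans ?_ (prod_bound k A κ hA0 hκ)
    exact_mod_cast card_filter_le _ _
  have hmain : ((F.biUnion T).card : ℝ) ≤ X * Real.exp (-((c + η) * L ^ 2)) := by
    calc ((F.biUnion T).card : ℝ) ≤ ∑ f ∈ F, ((T f).card : ℝ) := by exact_mod_cast card_biUnion_le
      _ ≤ ∑ f ∈ F, X * Real.exp (-(k * L) + η * L ^ 2) := sum_le_sum hTcard
      _ = F.card * (X * Real.exp (-(k * L) + η * L ^ 2)) := by rw [sum_const, nsmul_eq_mul]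
      _ ≤ Real.exp (k * Real.log 2 + k * A + k * ((k : ℝ) - 1) / (2 * κ))
            * (X * Real.exp (-(k * L) + η * L ^ 2)) :=
          mul_le_mul_of_nonneg_right hcardF (by positivity)
      _ = X * Real.exp ((k * Real.log 2 + k * A + k * ((k : ℝ) - 1) / (2 * κ)) + (-(k * L) + η * L ^ 2)) := by
          generalize k * Real.log 2 + k * A + k * ((k : ℝ) - 1) / (2 * κ) = u
          generalize -(k * L) + η * L ^ 2 = v
          rw [Real.exp_add]; ring
      _ ≤ X * Real.exp (-((c + η) * L ^ 2)) := by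
          apply mul_le_mul_of_nonneg_left _ hXpos.le
          rw [Real.exp_le_exp]
          have h1 := aux_final (l2 := Real.log 2) hκ hτ0 hL1 hJ5 (Real.log_nonneg (by norm_num)) hJ6 hcη
            (hk1.trans hsτ) (Nat.cast_nonneg k) hk2 e2
          have h2 : 1 - τ = θ := by rw [hτ]; ring
          rw [h2] at h1
          exact h1
  have h1 : (((Icc 1 X).filter (fun n => (exceptions (Real.log X) n : ℝ) ≤ Real.log X ^ θ)).card : ℝ)
      ≤ (((Icc 1 X).filter (fun n => ¬ X < n ^ 2)).card : ℝ) + ((F.biUnion T).card : ℝ) := by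
    exact_mod_cast (card_le_card hsub).trans (card_union_le _ _)
  have h2 := sqrt_card X
  -- the trivial part
  have h3 : Real.exp (Real.log X / 2) ≤ X * Real.exp (-(c * L ^ 2)) / 2 := by
    have h4 : (2 * |c| + 2) * L ^ 2 ≤ Real.log X := by rw [← hexpL]; exact e4
    have h5 : c * L ^ 2 ≤ |c| * L ^ 2 := mul_le_mul_of_nonneg_right (le_abs_self c) (sq_nonneg L)
    have h6 : 1 ≤ L ^ 2 := by nlinarith
    have h7 : Real.log 2 ≤ 1 := by have := Real.log_two_lt_d9; linarith
    have h8 : X * Real.exp (-(c * L ^ 2)) / 2 = Real.exp (Real.log X - c * L ^ 2 - Real.log 2) := by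
      rw [Real.exp_sub, Real.exp_sub, Real.exp_log hXpos, Real.exp_log (by norm_num), Real.exp_neg]
      field_simp
    rw [h8, Real.exp_le_exp]
    linarith
  have h4 : X * Real.exp (-((c + η) * L ^ 2)) ≤ X * Real.exp (-(c * L ^ 2)) / 2 := by
    have h5 : Real.exp (-((c + η) * L ^ 2)) = Real.exp (-(c * L ^ 2)) / Real.exp (η * L ^ 2) := by
      rw [← Real.exp_sub]; congr 1; ring
    rw [h5, ← mul_div_assoc]
    exact div_le_div_of_nonneg_left (by positivity) (by norm_num) e3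
  linarith

end Pool.Agent.H560.CL
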