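import Mathlib
import Pool.Agent.H560.CL.Scale

/-!
# Typical `n` have many exceptions
-/

set_option autoImplicit false

namespace Pool.Agent.H560.CL

open Finset Filter Topology

lemma pi_event_upper : ∀ᶠ w : ℕ in atTop, (Nat.primeCounting w : ℝ) * Real.log w ≤ 2 * w := by
  have h := (Pool.Agent.Cov.PNT.pi_tendsto.comp (tendsto_natCast_atTop_atTop (R := ℝ))).eventually
    (gt_mem_nhds (show (1 : ℝ) < 2 by norm_num))
  filter_upwards [h, eventually_ge_atTop 2] with w hw hw2
  simp only [Function.comp_apply, Nat.floor_natCast] at hw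
  have hwpos : (0 : ℝ) < w := by exact_mod_cast (by omega : 0 < w)
  rw [div_lt_iff₀ hwpos] at hw
  exact hw.le

lemma uncovered_many (y n : ℕ) : (y + 1) / 2 ≤
    ((range (y + 1)).filter (fun m => m % 2 = n % 2 ∧ ∀ d ∈ DD y n, d ≤ m → ¬ (m - d).Prime)).card
      + (DD y n).card * Nat.primeCounting y := by
  classical
  have h1 : ∀ j ∈ range ((y + 1) / 2), 2 * j + n % 2 ∈
      ((range (y + 1)).filter (fun m => m % 2 = n % 2 ∧ ∀ d ∈ DD y n, d ≤ m → ¬ (m - d).Prime))
        ∪ (DD y n ×ˢ (range (y + 1)).filter Nat.Prime).image (fun q => q.1 + q.2) := by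
    intro j hj
    rw [mem_range] at hj
    have hr : n % 2 < 2 := Nat.mod_lt _ (by norm_num)
    rw [mem_union]
    by_cases hbad : ∃ d ∈ DD y n, d ≤ 2 * j + n % 2 ∧ (2 * j + n % 2 - d).Prime
    · right
      obtain ⟨d, hd, hdm, hpr⟩ := hbad
      rw [mem_image]
      refine ⟨(d, 2 * j + n % 2 - d), mem_product.2 ⟨hd, ?_⟩, by simp only; omega⟩
      rw [mem_filter, mem_range]
      exact ⟨by simp only; omega, hpr⟩
    · left
      push Not at hbad
      rw [mem_filter, mem_range]
      exact ⟨by omega, by omega, fun d hd hdm => hbad d hd hdm⟩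
  have h2 := card_le_card_of_injOn (s := range ((y + 1) / 2)) (fun j => 2 * j + n % 2) h1 (by
    intro i _ j _ hij
    simp only at hij
    omega)
  rw [card_range] at h2
  refine h2.trans ((card_union_le _ _).trans ?_)
  apply Nat.add_le_add_left
  refine card_image_le.trans ?_
  rw [card_product, Nat.primeCounting, Nat.primeCounting', Nat.count_eq_card_filter_range]

lemma sum_DD (X y : ℕ) : ∑ n ∈ Icc 1 X, (DD y n).card ≤ (y + 1) * Nat.primeCounting X := by
  classical
  have h1 : ∀ n, (DD y n).card = ∑ d ∈ range (y + 1), if (d ≤ n ∧ (n - d).Prime) then 1 else 0 := by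
    intro n
    rw [DD, card_filter]
  simp_rw [h1]
  rw [sum_comm]
  have h2 : ∀ d ∈ range (y + 1), ∑ n ∈ Icc 1 X, (if (d ≤ n ∧ (n - d).Prime) then 1 else 0) ≤ Nat.primeCounting X := by
    intro d _
    rw [← card_filter, Nat.primeCounting, Nat.primeCounting', Nat.count_eq_card_filter_range]
    apply card_le_card_of_injOn (fun n => n - d)
    · intro n hn
      rw [mem_coe, mem_filter, mem_Icc] at hn
      rw [mem_coe, mem_filter, mem_range]
      beta_reduce
      exact ⟨by omega, hn.2.2⟩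
    · intro n hn m hm h
      rw [mem_coe, mem_filter, mem_Icc] at hn hm
      simp only at h
      omega
  refine (sum_le_sum h2).trans ?_
  rw [sum_const, card_range, smul_eq_mul]

/-- **Typical `n` have many exceptions.** -/
theorem typical (ε δ : ℝ) (hε : 0 < ε) (hδ : 0 < δ) : ∃ c : ℝ, 0 < c ∧ ∀ᶠ X : ℕ in atTop,
    (((Icc 1 X).filter (fun n => (exceptions (c * Real.log X * Real.log (Real.log X)) n : ℝ)
      ≤ (1 - δ) * (c * Real.log X * Real.log (Real.log X) / 2))).card : ℝ) ≤ ε * X := by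
  classical
  set c := ε * δ / 200 with hc
  have hc0 : 0 < c := by positivity
  refine ⟨c, hc0, ?_⟩
  have hlog : Tendsto (fun X : ℕ => Real.log X) atTop atTop :=
    Real.tendsto_log_atTop.comp tendsto_natCast_atTop_atTop
  have hL : Tendsto (fun X : ℕ => Real.log (Real.log X)) atTop atTop :=
    Real.tendsto_log_atTop.comp hlog
  have hM : Tendsto (fun X : ℕ => c * Real.log X * Real.log (Real.log X)) atTop atTop :=
    (hlog.const_mul_atTop hc0).atTop_mul_atTop₀ hL
  have hY : Tendsto (fun X : ℕ => ⌊c * Real.log X * Real.log (Real.log X)⌋₊) atTop atTop :=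
    tendsto_nat_floor_atTop.comp hM
  have hXl : ∀ᶠ X : ℕ in atTop, (c * Real.log X ^ 2 + 1) ^ 2 + 16 / ε ^ 2 * Real.log X ^ 2 ≤ (X : ℝ) := by
    have h1 := (Real.tendsto_pow_mul_exp_neg_atTop_nhds_zero 4).const_mul ((c + 1) ^ 2 + 16 / ε ^ 2)
    rw [mul_zero] at h1
    filter_upwards [hlog.eventually (h1.eventually (gt_mem_nhds (zero_lt_one))),
      hlog.eventually (eventually_ge_atTop 1), eventually_ge_atTop 1] with X h2 h3 h4
    have hX : (0 : ℝ) < X := by exact_mod_cast (by omega : 0 < X)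
    set l := Real.log X with hl
    have h5 := mul_lt_mul_of_pos_right h2 (Real.exp_pos l)
    have h6 : ((c + 1) ^ 2 + 16 / ε ^ 2) * (l ^ 4 * Real.exp (-l)) * Real.exp l
        = ((c + 1) ^ 2 + 16 / ε ^ 2) * l ^ 4 := by
      rw [Real.exp_neg]; field_simp
    rw [h6, hl, Real.exp_log hX, one_mul, ← hl] at h5
    have h7 : c * l ^ 2 + 1 ≤ (c + 1) * l ^ 2 := by nlinarith
    have h8 : (c * l ^ 2 + 1) ^ 2 ≤ ((c + 1) * l ^ 2) ^ 2 := pow_le_pow_left₀ (by positivity) h7 2
    have h9 : ((c + 1) * l ^ 2) ^ 2 = (c + 1) ^ 2 * l ^ 4 := by ring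
    have h10 : l ^ 2 ≤ l ^ 4 := pow_le_pow_right₀ h3 (by norm_num)
    have h11 : 16 / ε ^ 2 * l ^ 2 ≤ 16 / ε ^ 2 * l ^ 4 := mul_le_mul_of_nonneg_left h10 (by positivity)
    have h12 : ((c + 1) ^ 2 + 16 / ε ^ 2) * l ^ 4 = (c + 1) ^ 2 * l ^ 4 + 16 / ε ^ 2 * l ^ 4 := by ring
    linarith
  filter_upwards [hY.eventually pi_event_upper, pi_event_upper, hXl, hlog.eventually (eventually_ge_atTop 1),
    hL.eventually (eventually_ge_atTop (max 1 (2 / c))), hM.eventually (eventually_ge_atTop (max 4 (8 / δ))),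
    hY.eventually (eventually_ge_atTop 1), eventually_ge_atTop 3]
    with X hpy hpX hXl hl1 hL1 hM1 hy1 hX3
  set l := Real.log X with hl
  set L := Real.log l with hLdef
  set M := c * l * L with hMdef
  set y := ⌊M⌋₊ with hy
  have hXpos : (0 : ℝ) < X := by exact_mod_cast (by omega : 0 < X)
  have hL1' : 1 ≤ L := (le_max_left _ _).trans hL1
  have hL2 : 2 ≤ c * L := by
    have := (le_max_right _ _).trans hL1
    rw [div_le_iff₀ hc0] at this; linarith
  have hM4 : 4 ≤ M := (le_max_left _ _).trans hM1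
  have hMδ : 8 ≤ δ * M := by
    have := (le_max_right _ _).trans hM1
    rw [div_le_iff₀ hδ] at this; linarith
  have hyM : (y : ℝ) ≤ M := Nat.floor_le (by linarith)
  have hyM' : M - 1 ≤ y := by
    have := Nat.lt_floor_add_one M
    rw [← hy] at this; linarith
  have hLl : L ≤ l := by
    have := Real.log_le_sub_one_of_pos (show (0 : ℝ) < l by linarith)
    linarith
  have hMl : M ≤ c * l ^ 2 := by
    rw [hMdef, sq, ← mul_assoc]
    exact mul_le_mul_of_nonneg_left hLl (by positivity)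
  -- log y ≥ L
  have hlogy : L ≤ Real.log y := by
    apply Real.log_le_log (by linarith)
    have h1 : l * 2 ≤ l * (c * L) := mul_le_mul_of_nonneg_left hL2 (by linarith)
    have h2 : M = l * (c * L) := by rw [hMdef]; ring
    linarith
  have hpy' : (Nat.primeCounting y : ℝ) ≤ 2 * c * l := by
    have h1 : (Nat.primeCounting y : ℝ) * L ≤ 2 * M := by
      calc (Nat.primeCounting y : ℝ) * L ≤ (Nat.primeCounting y : ℝ) * Real.log y :=
            mul_le_mul_of_nonneg_left hlogy (Nat.cast_nonneg _)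
        _ ≤ 2 * y := hpy
        _ ≤ 2 * M := by linarith
    have h2 : 2 * M = (2 * c * l) * L := by rw [hMdef]; ring
    rw [h2] at h1
    exact le_of_mul_le_mul_right h1 (by linarith)
  -- the bad set
  set B := (Icc 1 X).filter (fun n => (exceptions M n : ℝ) ≤ (1 - δ) * (M / 2)) with hB
  set B1 := B.filter (fun n => ¬ X < n ^ 2) with hB1
  set B2 := B.filter (fun n => X < n ^ 2) with hB2
  have hB12 : (B.card : ℝ) = B1.card + B2.card := by
    have := card_filter_add_card_filter_not (s := B) (fun n => X < n ^ 2)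
    rw [← hB2, ← hB1] at this
    have h' : B.card = B1.card + B2.card := by omega
    exact_mod_cast h'
  have hB1c : (B1.card : ℝ) ≤ ε / 4 * X := by
    have h1 : B1 ⊆ Icc 1 (Nat.sqrt X) := by
      intro n hn
      rw [hB1, hB, mem_filter, mem_filter, mem_Icc, not_lt] at hn
      rw [mem_Icc]
      exact ⟨hn.1.1.1, Nat.le_sqrt'.2 hn.2⟩
    have h2 := card_le_card h1
    rw [Nat.card_Icc, Nat.add_sub_cancel] at h2
    have h3 : (Nat.sqrt X : ℝ) ≤ Real.sqrt X := Real.nat_sqrt_le_real_sqrt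
    have h4 : Real.sqrt X ≤ ε / 4 * X := by
      rw [Real.sqrt_le_left (by positivity)]
      have h5 : 16 / ε ^ 2 ≤ X := by
        have h6 : 16 / ε ^ 2 * 1 ≤ 16 / ε ^ 2 * l ^ 2 := by
          apply mul_le_mul_of_nonneg_left _ (by positivity)
          nlinarith
        have h7 : 0 ≤ (c * l ^ 2 + 1) ^ 2 := sq_nonneg _
        linarith
      rw [div_le_iff₀ (by positivity)] at h5
      have h6 : (ε / 4 * X) ^ 2 = X * ε ^ 2 / 16 * X := by ring
      rw [h6]
      have h7 : 1 ≤ X * ε ^ 2 / 16 := by linarith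
      calc (X : ℝ) = 1 * X := (one_mul _).symm
        _ ≤ X * ε ^ 2 / 16 * X := mul_le_mul_of_nonneg_right h7 hXpos.le
    have h5 : (B1.card : ℝ) ≤ Nat.sqrt X := by exact_mod_cast h2
    linarith
  have hB2D : ∀ n ∈ B2, δ * L / 8 ≤ ((DD y n).card : ℝ) := by
    intro n hn
    rw [hB2, hB, mem_filter, mem_filter, mem_Icc] at hn
    obtain ⟨⟨⟨hn1, hnX⟩, hexc⟩, hnn⟩ := hn
    have hnlow : c * l ^ 2 + 1 < n := by
      have h1 : (X : ℝ) < (n : ℝ) ^ 2 := by exact_mod_cast hnn
      have h2 : 0 ≤ 16 / ε ^ 2 * l ^ 2 := by positivity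
      have h3 : (c * l ^ 2 + 1) ^ 2 < (n : ℝ) ^ 2 := by linarith
      exact lt_of_pow_lt_pow_left₀ 2 (Nat.cast_nonneg n) h3
    have hyn : y < n := by
      have : (y : ℝ) < n := by linarith
      exact_mod_cast this
    have h1 := uncovered_le M y n hyM hyn
    have h2 := uncovered_many y n
    have h3 : (y + 1) / 2 ≤ exceptions M n + (DD y n).card * Nat.primeCounting y :=
      h2.trans (Nat.add_le_add_right h1 _)
    have h4 : (((y + 1) / 2 : ℕ) : ℝ) ≤ exceptions M n + (DD y n).card * Nat.primeCounting y := by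
      exact_mod_cast h3
    have h5 : (y : ℝ) / 2 ≤ (((y + 1) / 2 : ℕ) : ℝ) := by
      have h6 : y ≤ 2 * ((y + 1) / 2) := by omega
      have h7 : (y : ℝ) ≤ 2 * (((y + 1) / 2 : ℕ) : ℝ) := by exact_mod_cast h6
      linarith
    have h6 : δ * M / 4 ≤ (DD y n).card * Nat.primeCounting y := by
      have h7 : (1 - δ) * (M / 2) = M / 2 - δ * M / 2 := by ring
      linarith
    have h7 : ((DD y n).card : ℝ) * Nat.primeCounting y ≤ (DD y n).card * (2 * c * l) :=
      mul_le_mul_of_nonneg_left hpy' (Nat.cast_nonneg _)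
    have h8 : δ * M / 4 = (δ * L / 8) * (2 * c * l) := by rw [hMdef]; ring
    have h9 : (δ * L / 8) * (2 * c * l) ≤ (DD y n).card * (2 * c * l) := by linarith
    exact le_of_mul_le_mul_right h9 (by positivity)
  have hsum : (B2.card : ℝ) * (δ * L / 8) ≤ (M + 1) * (2 * X / l) := by
    have h1 : (B2.card : ℝ) * (δ * L / 8) ≤ ∑ n ∈ B2, ((DD y n).card : ℝ) := by
      rw [← nsmul_eq_mul, ← sum_const]
      exact sum_le_sum hB2D
    have h2 : ∑ n ∈ B2, ((DD y n).card : ℝ) ≤ ∑ n ∈ Icc 1 X, ((DD y n).card : ℝ) := by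
      apply sum_le_sum_of_subset_of_nonneg
      · exact (filter_subset _ _).trans (filter_subset _ _)
      · intro _ _ _; exact Nat.cast_nonneg _
    have h3 : ∑ n ∈ Icc 1 X, ((DD y n).card : ℝ) ≤ (y + 1) * Nat.primeCounting X := by
      exact_mod_cast sum_DD X y
    have h4 : (Nat.primeCounting X : ℝ) ≤ 2 * X / l := by
      rw [le_div_iff₀ (by linarith)]; exact hpX
    have h5 : ((y : ℝ) + 1) * Nat.primeCounting X ≤ (M + 1) * (2 * X / l) :=
      mul_le_mul (by linarith) h4 (Nat.cast_nonneg _) (by linarith)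
    linarith
  have hB2c : (B2.card : ℝ) ≤ ε / 4 * X := by
    have h1 : (M + 1) * (2 * X / l) ≤ 4 * c * L * X := by
      have h2 : (M + 1) * (2 * X / l) ≤ (2 * M) * (2 * X / l) :=
        mul_le_mul_of_nonneg_right (by linarith) (by positivity)
      have h3 : (2 * M) * (2 * X / l) = 4 * c * L * X := by
        rw [hMdef]; field_simp; ring
      linarith
    have h2 : (B2.card : ℝ) * (δ * L / 8) ≤ (ε / 4 * X) * (δ * L / 8) := by
      refine (hsum.trans h1).trans ?_
      have h3 : 4 * c * L * X = (ε * δ / 50) * (L * X) := by rw [hc]; ring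
      have h4 : (ε / 4 * X) * (δ * L / 8) = (ε * δ / 32) * (L * X) := by ring
      rw [h3, h4]
      apply mul_le_mul_of_nonneg_right _ (by positivity)
      have : 0 < ε * δ := by positivity
      linarith
    exact le_of_mul_le_mul_right h2 (by positivity)
  rw [hB12]
  have : 0 ≤ ε * X := by positivity
  linarith

end Pool.Agent.H560.CL
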